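import Mathlib
import Pool.Agent.Q256.UP.PlA
import Pool.Agent.Q256.UI.Stm

set_option autoImplicit false

/-!
# Integer points on almost all plane curves: statements (project UG)

`F` runs through ALL the integral polynomials in `x, y` of degree at most `d`, `d ≥ 7`, with
coefficients in `[-H, H]` (`N = (d+1)(d+2)/2` coefficients). THEOREM: among the `F` with an integer
zero all but a proportion `O(H ^ (-1/4))` have exactly ONE integer zero (of any size), and it has size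
at most `R` up to a proportion `O(R ^ (-(d - 2)) + H ^ (-1/4))`.

Plan. At least `(2H+1)^(N-1)` of the `F` have an integer zero (`F(0,0) = 0`). We bound the number of the
`F` with a zero of size about `T`:
* `T ≤ H ^ (d - 3/2)`: the theorem `MP_821da1_nt.UniquePoint`;
* `T > H ^ C`: the starting result `MP_2d259b_nt.FewExceptionalCurves`;
* the middle range is new (`DYG`). Let `P = (x, y)` be a zero, `T ≤ x ≤ 2T`, `|y| ≤ x`, `z = y/x` and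
  `f(z) = F_d(1, z)` (`F_d` the part of degree `d`). Then `|f(z)| ≤ C H/T` is tiny. Either `|f'(z)| ≤ 1/8`
  (`Flat`, few leading forms by `CLS`), or there is a zero `θ` of `f` with `|f'(θ)| ≥ 1/16` and
  `|y - θ x| ≤ K = A H/|f'(θ)|` (`NWT`). Near the asymptote the points lie on few lines (`COG`), three
  collinear points force the coefficient `rho` of the asymptotic expansion to be tiny (`GD3`), which
  determines the coefficient of `x^(d-2)` of `F`.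
The counts use the modification principle `CMG`: if `F` has the zero `P = (x, y)`, `|x| > H`, and `g` is
a polynomial in `x` of degree `m` with coefficients in `[0, H]`, then `F + g` has at `P` a value of size
at most `(m+1) H |x|^m`, and this value determines `g`.
-/

namespace Pool.Agent.Q256.UG

open Finset MvPolynomial
open Pool.Agent.Q256.UP (PBox)
open Pool.Agent.Q256.UI (ev tc Q kap rho)

/-- The number of the coefficients of a polynomial of degree `d`. -/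
def NC (d : ℕ) : ℕ := (d + 2).choose 2

/-- The (normalised) coefficients: `a d 0 = 0`, `|a d 1| = 1`, all are `O(K)`. -/
structure Bg (d : ℕ) (A K : ℝ) (a : ℕ → ℕ → ℝ) : Prop where
  zero : a d 0 = 0
  one : |a d 1| = 1
  all : ∀ k j, k ≤ d → j ≤ k → |a k j| ≤ A * K

/-- The value at `(b, a)` of the part of degree `d` of `F`. -/
noncomputable def ld (d : ℕ) (F : MvPolynomial (Fin 2) ℤ) (b a : ℤ) : ℤ :=
  ∑ i ∈ range (d + 1),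
    F.coeff (Finsupp.single 0 (d - i) + Finsupp.single 1 i) * b ^ (d - i) * a ^ i

/-- `θ` is a well conditioned zero of `f(z) = F_d(1, z)` (note `tc F z d 0 = f(z)`,
`tc F z d 1 = f'(z)`, `tc F z d j = f^(j)(z)/j!`). -/
structure Th (d : ℕ) (F : MvPolynomial (Fin 2) ℤ) (θ : ℝ) : Prop where
  abs : |θ| ≤ 2
  zero : tc F θ d 0 = 0
  one : 1 / 16 ≤ |tc F θ d 1|

/-- The normalised coefficients of `F(x, θ x + u)`. So `Q d (nt d F θ) = Q d (tc F θ) / |f'(θ)|`,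
`kap d (nt d F θ) = kap d (tc F θ)` and `rho d (nt d F θ) = rho d (tc F θ) / |f'(θ)|`. -/
noncomputable def nt (d : ℕ) (F : MvPolynomial (Fin 2) ℤ) (θ : ℝ) (k j : ℕ) : ℝ :=
  tc F θ k j / |tc F θ d 1|

/-- `F` (height `O(H)`) with the well conditioned direction `θ`; `K = A H/|f'(θ)|`. -/
structure Gd (d c : ℕ) (A : ℝ) (H : ℕ) (F : MvPolynomial (Fin 2) ℤ) (θ : ℝ) : Prop where
  box : F ∈ PBox d (c * H)
  th : Th d F θ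
  k1 : 1 ≤ A * H / |tc F θ d 1|
  bg : Bg d A (A * H / |tc F θ d 1|) (nt d F θ)

/-- The leading form is nearly degenerate at a real point `z`. -/
def Flat (d H : ℕ) (F : MvPolynomial (Fin 2) ℤ) : Prop :=
  ∃ z : ℝ, |z| ≤ 2 ∧ |tc F z d 0| * (H : ℝ) ^ 2 ≤ 1 ∧ |tc F z d 1| ≤ 1 / 8

/-- The integer points with `T ≤ x ≤ 2 T` near the direction `θ` at which `F` is at most `W`. -/
def Ap (d : ℕ) (F : MvPolynomial (Fin 2) ℤ) (θ A : ℝ) (H : ℕ) (T W : ℝ) : Set (ℤ × ℤ) :=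
  {p | T ≤ p.1 ∧ (p.1 : ℝ) ≤ 2 * T ∧ |(p.2 : ℝ) - θ * p.1| ≤ A * H / |tc F θ d 1| ∧
    |((eval ![p.1, p.2] F : ℤ) : ℝ)| ≤ W}

/-- The leading form has a rational zero `a / b` with large `b`. -/
def RS (d H : ℕ) : Set (MvPolynomial (Fin 2) ℤ) :=
  {F | ∃ a b : ℤ, IsCoprime a b ∧ 1 ≤ b ∧ |a| ≤ 2 * b ∧ (H : ℤ) < b ^ d ∧ ld d F b a = 0}

/-- The leading form has a rational zero `a / b` with small `b` and `|rho| ≤ 1/4` there. -/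
def RD (d H : ℕ) : Set (MvPolynomial (Fin 2) ℤ) :=
  {F | ∃ a b : ℤ, IsCoprime a b ∧ 1 ≤ b ∧ |a| ≤ 2 * b ∧ b ^ d ≤ (H : ℤ) ∧ ld d F b a = 0 ∧
    |rho d (tc F ((a : ℝ) / b))| ≤ 1 / 4}

/-- The coefficients of the leading form. -/
noncomputable def lc (d : ℕ) (F : MvPolynomial (Fin 2) ℤ) : Fin (d + 1) → ℤ :=
  fun i => F.coeff (Finsupp.single 0 (d - (i : ℕ)) + Finsupp.single 1 (i : ℕ))

/-- `f^(j)(z)/j!` for `f = ∑ c i z^i`. -/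
noncomputable def pv (d : ℕ) (c : Fin (d + 1) → ℤ) (j : ℕ) (z : ℝ) : ℝ :=
  ∑ i : Fin (d + 1), (c i : ℝ) * ((i : ℕ).choose j : ℝ) * z ^ ((i : ℕ) - j)

/-- Coefficient vectors of height at most `H`. -/
def Vc (d H : ℕ) : Set (Fin (d + 1) → ℤ) := {c | ∀ i, |c i| ≤ H}

/-- The `F` with a zero `(x, y)`, `a ≤ x ≤ b`, `|y| ≤ x`. -/
def ZG (d H a b : ℕ) : Set (MvPolynomial (Fin 2) ℤ) :=
  {F | F ∈ PBox d H ∧ ∃ x y : ℤ, (a : ℤ) ≤ x ∧ x ≤ b ∧ |y| ≤ x ∧ eval ![x, y] F = 0}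

/-- The `F` outside `RS`, `RD` with a zero `(x, y)`, `T ≤ x ≤ 2T`, near the direction `θ`, and
`|rho| > 1/4` at `θ`. -/
def VN (d : ℕ) (A : ℝ) (H T : ℕ) : Set (MvPolynomial (Fin 2) ℤ) :=
  {F | F ∈ PBox d H ∧ F ∉ RS d H ∧ F ∉ RD d H ∧ ∃ (x y : ℤ) (θ : ℝ), (T : ℤ) ≤ x ∧ x ≤ 2 * T ∧
    |y| ≤ x ∧ eval ![x, y] F = 0 ∧ Th d F θ ∧ |(y : ℝ) - θ * x| ≤ A * H / |tc F θ d 1| ∧
    1 / 4 < |rho d (tc F θ)|}

/-- The same with `|rho| ≤ 1/4` at `θ`. -/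
def VD (d : ℕ) (A : ℝ) (H T : ℕ) : Set (MvPolynomial (Fin 2) ℤ) :=
  {F | F ∈ PBox d H ∧ F ∉ RS d H ∧ F ∉ RD d H ∧ ∃ (x y : ℤ) (θ : ℝ), (T : ℤ) ≤ x ∧ x ≤ 2 * T ∧
    |y| ≤ x ∧ eval ![x, y] F = 0 ∧ Th d F θ ∧ |(y : ℝ) - θ * x| ≤ A * H / |tc F θ d 1| ∧
    |rho d (tc F θ)| ≤ 1 / 4}

/-! ## Analysis: divided differences

All constants `C` depend on `d` and `A` only. For `(k, j) ≠ (d, 0)` put `i = d - 1 - k + j ≥ 0`.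
Dividing by `x^(d-1)`,
`Q d a x u / x^(d-1) = a d 1 * u + a (d-1) 0 + ∑ over (k, j) with i ≥ 1 of a k j u^j x^(-i)`.
For `i ≥ 1`: `j = i + 1` if `k = d` and `j ≤ i` if `k < d`, so (`|u| ≤ U0 := A K`, `K ≥ 1`)
`|a k j| U0^j ≤ C K^(i+2)`, `|a k j| U0^(j-1) ≤ C K^(i+1)` (`j ≥ 1`), `|a k j| U0^(j-2) ≤ C K^i` (`j ≥ 2`).
The similar jobs of project UI (bounded leading form; modules `Pool.Agent.Q124.UI.DD1`, `DD2`, ... on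
main) can be copied with small changes. -/

/-- **JOB GD1** (0.8 h), `theorem gd1 : S_GD1`. First differences. PROOF. Divide the two inequalities by
`x^(d-1)`, `y^(d-1) ≥ T^(d-1)` and subtract (`|a d 1| = 1`): `|u - v| ≤ 2 W / T^(d-1) + ∑ |a k j| |u^j x^(-i) - v^j y^(-i)|`,
the sum over the `(k, j)` with `i ≥ 1`. Here
`|u^j x^(-i) - v^j y^(-i)| ≤ j U0^(j-1) |u - v| T^(-i) + U0^j i T^(-i-1) |x - y|`, so that the term is at most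
`C (K^(i+1) T^(-i) |u - v| + K^(i+2) T^(-i-1) |x - y|) ≤ C ((K^2/T) |u - v| + (K^3/T^2) |x - y|)` (`K ≤ T`, `i ≥ 1`).
The first part is absorbed for `T ≥ C' K^2`. -/
def S_GD1 : Prop :=
  ∀ (d : ℕ) (A : ℝ), 5 ≤ d → 1 ≤ A → ∃ C : ℝ, 1 ≤ C ∧ ∀ (K T W : ℝ) (a : ℕ → ℕ → ℝ),
    1 ≤ K → C * K ^ 2 ≤ T → Bg d A K a → 0 ≤ W → ∀ x y u v : ℝ, T ≤ x → x ≤ 2 * T → T ≤ y →
    y ≤ 2 * T → |u| ≤ A * K → |v| ≤ A * K → |Q d a x u| ≤ W → |Q d a y v| ≤ W →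
    |u - v| ≤ C * (K ^ 3 / T ^ 2 * |x - y| + W / T ^ (d - 1))

/-- **JOB GD2** (1.5 h), `theorem gd2 : S_GD1 → S_GD2`. Second differences. PROOF. For functions on the
three nodes `x, y, z` write `g[x,y] = (g x - g y)/(x - y)` and `g[x,y,z] = (g[x,y] - g[y,z])/(x - z)`.
Leibniz: `(g h)[x,y] = g x h[x,y] + g[x,y] h y`, `(g h)[x,y,z] = g x h[x,y,z] + g[x,y] h[y,z] + g[x,y,z] h z`.
Let `U0 = A K`, `U1` = the largest `|u[.,.]|` and `U2 = |u[x,y,z]|` (the function with the values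
`u, v, w`). By GD1, `W ≤ A K T^(d-3)` and `|x - y| ≥ 1` etc. we have `U1 ≤ C K^3/T^2`. Apply `[x,y,z]` to
`a d 1 * u + a (d-1) 0 + ∑ a k j u^j x^(-i) = ε`, `|ε| ≤ W/T^(d-1)` at the nodes.
`|(u^j)[x,y]| ≤ j U0^(j-1) U1`, `|(u^j)[x,y,z]| ≤ j U0^(j-1) U2 + j^2 U0^(j-2) U1^2` (the last term only for `j ≥ 2`),
`|(x^(-i))[x,y]| ≤ i T^(-i-1)`, `|(x^(-i))[x,y,z]| ≤ i^2 T^(-i-2)`. So a term with `i ≥ 1` is at most
`C [K^(i+1) T^(-i) U2 + K^i T^(-i) U1^2 + K^(i+1) T^(-i-1) U1 + K^(i+2) T^(-i-2)]`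
`≤ C [(K^2/T) U2 + K^7/T^5 + K^5/T^4 + K^3/T^3] ≤ C [(K^2/T) U2 + K^3/T^3]` (`T ≥ K^2`). Hence, for `T ≥ C' K^2`,
`U2 ≤ C (K^3/T^3 + |ε[x,y,z]|)`; multiply by `|x-y| |y-z| |z-x|`: `u (y-z) + v (z-x) + w (x-y)` is up to the sign
this product times `u[x,y,z]`, and `|ε[x,y,z]|` times the product is at most
`(W/T^(d-1)) (|x-y| + |y-z| + |z-x|)`. -/
def S_GD2 : Prop :=
  ∀ (d : ℕ) (A : ℝ), 5 ≤ d → 1 ≤ A → ∃ C : ℝ, 1 ≤ C ∧ ∀ (K T W : ℝ) (a : ℕ → ℕ → ℝ),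
    1 ≤ K → C * K ^ 2 ≤ T → Bg d A K a → 0 ≤ W → W ≤ A * K * T ^ (d - 3) → ∀ x y z u v w : ℝ,
    T ≤ x → x ≤ 2 * T → T ≤ y → y ≤ 2 * T → T ≤ z → z ≤ 2 * T →
    1 ≤ |x - y| → 1 ≤ |y - z| → 1 ≤ |z - x| →
    |u| ≤ A * K → |v| ≤ A * K → |w| ≤ A * K →
    |Q d a x u| ≤ W → |Q d a y v| ≤ W → |Q d a z w| ≤ W →
    |u * (y - z) + v * (z - x) + w * (x - y)| ≤
      C * (K ^ 3 / T ^ 3 * (|x - y| * |y - z| * |z - x|) +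
        W / T ^ (d - 1) * (|x - y| + |y - z| + |z - x|))

/-- **JOB GD3** (1.5 h), `theorem gd3 : S_GD1 → S_GD3`. Three collinear points. PROOF. Notation as in
GD2; now `U2 = 0`. `U1 ≤ C K^3/T^2`. Apply `[x,y,z]`: `0 = ∑ (a k j u^j x^(-i))[x,y,z] - ε[x,y,z]`, the sum
over `i ≥ 1`, `|ε[x,y,z]| ≤ 3 W/(T^(d-1) b^2)`. The terms with `i ≥ 2` are at most
`C [K^i T^(-i) U1^2 + K^(i+1) T^(-i-1) U1 + K^(i+2) T^(-i-2)] ≤ C [K^8/T^6 + K^6/T^5 + K^4/T^4] ≤ C K^4/T^4`. The terms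
with `i = 1` are `(d, 2)`, `(d-1, 1)`, `(d-2, 0)`, together `(q(u)/x)[x,y,z]` with
`q(u) = a d 2 u^2 + a (d-1) 1 u + a (d-2) 0`; by Leibniz this is `q(u)(x) (1/x)[x,y,z]` (and
`(1/x)[x,y,z] = 1/(x y z)`, of absolute value `≥ 1/(8 T^3)`) plus `q(u)[x,y] (1/x)[y,z]`, at most
`C K^2 U1 T^(-2) ≤ C K^5/T^4`, plus `q(u)[x,y,z] (1/z)`, `q(u)[x,y,z] = a d 2 u[x,y] u[y,z]` as `U2 = 0`, at most
`C K U1^2/T ≤ C K^7/T^5 ≤ C K^5/T^4`. So `|q(u)| ≤ C (K^5/T + W T^3/(T^(d-1) b^2))`. Finally `|u - kap| ≤ C K^3/T`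
(as in GD4, with `W/T^(d-1) ≤ A K/T^2`), hence `|q(u) - rho| ≤ C K^2 |u - kap| ≤ C K^5/T` (`|kap| ≤ A K`). -/
def S_GD3 : Prop :=
  ∀ (d : ℕ) (A : ℝ), 5 ≤ d → 1 ≤ A → ∃ C : ℝ, 1 ≤ C ∧ ∀ (K T W b : ℝ) (a : ℕ → ℕ → ℝ),
    1 ≤ K → C * K ^ 2 ≤ T → Bg d A K a → 0 ≤ W → W ≤ A * K * T ^ (d - 3) → 1 ≤ b →
    ∀ x y z u v w : ℝ,
    T ≤ x → x ≤ 2 * T → T ≤ y → y ≤ 2 * T → T ≤ z → z ≤ 2 * T →
    b ≤ |x - y| → b ≤ |y - z| → b ≤ |z - x| →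
    |u| ≤ A * K → |v| ≤ A * K → |w| ≤ A * K →
    |Q d a x u| ≤ W → |Q d a y v| ≤ W → |Q d a z w| ≤ W →
    u * (y - z) + v * (z - x) + w * (x - y) = 0 →
    |rho d a| ≤ C * (K ^ 5 / T + W * T ^ 3 / (T ^ (d - 1) * b ^ 2))

/-- **JOB GD4** (0.6 h), `theorem gd4 : S_GD4`. One point. PROOF. Divide by `x^(d-1)`:
`a d 1 (u - kap) = a d 1 u + a (d-1) 0 = ε - ∑ (i ≥ 1) a k j u^j x^(-i)`, and each term with `i ≥ 1` is at most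
`C K^(i+2)/T^i ≤ C K^3/T`. If `u = kap` then the terms with `i = 1` together are `rho/x`, the terms with `i ≥ 2` are
at most `C K^4/T^2`, and `0 = ε - ∑`; multiply by `x ≤ 2 T`. -/
def S_GD4 : Prop :=
  ∀ (d : ℕ) (A : ℝ), 5 ≤ d → 1 ≤ A → ∃ C : ℝ, 1 ≤ C ∧ ∀ (K T W : ℝ) (a : ℕ → ℕ → ℝ),
    1 ≤ K → K ≤ T → Bg d A K a → 0 ≤ W → ∀ x u : ℝ, T ≤ x → x ≤ 2 * T →
    |u| ≤ A * K → |Q d a x u| ≤ W →
    |u - kap d a| ≤ C * (K ^ 3 / T + W / T ^ (d - 1)) ∧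
    (u = kap d a → |rho d a| ≤ C * (K ^ 4 / T + W * T / T ^ (d - 1)))

/-! ## The points near a direction -/

/-- **JOB TCB** (0.5 h), `theorem tcb : S_TCB`. PROOF. `|tc F θ k j| ≤ (k+1) c H 2^k 2^k ≤ A H` for `|θ| ≤ 2`, `k ≤ d`
(`A = (d+1) c 4^d + 1`); so `|f'(θ)| ≤ A H ≤ A' H`, and `|nt d F θ k j| ≤ A H/|f'(θ)| ≤ A' (A' H/|f'(θ)|)`. -/
def S_TCB : Prop :=
  ∀ (d c : ℕ), 2 ≤ d → ∃ A : ℝ, 1 ≤ A ∧ ∀ A' : ℝ, A ≤ A' →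
    ∀ (H : ℕ) (F : MvPolynomial (Fin 2) ℤ) (θ : ℝ), 1 ≤ H → F ∈ PBox d (c * H) → Th d F θ →
    Gd d c A' H F θ

/-- **JOB NWT** (1 h), `theorem nwt : S_NWT`. Newton's method. PROOF. `z = y/x ∈ [-1, 1]`. `0 = F(x, y) = ∑ x^k tc F z k 0`,
`|tc F z k 0| ≤ (k+1) H`, so `|f(z)| ≤ C1 H/x` for `f(z) = tc F z d 0`, `C1 = (d+1)^2`. If `|f'(z)| ≤ 1/8` then `Flat`
holds with this `z`, as `x ≥ A' H^3 ≥ C1 H^3`. Otherwise let `|f''| ≤ C2 H` on `[-2, 2]` and `δ = 2 |f(z)|/|f'(z)| ≤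
16 C1 H/x ≤ 16 C1/(A H^2) ≤ 1`. For `|w - z| ≤ δ`: `|f'(w) - f'(z)| ≤ C2 H δ ≤ 1/16 ≤ |f'(z)|/2` (`A` large). So `f'` has a
constant sign there and `|f'(w)| ≥ |f'(z)|/2`, and `f(z - δ)`, `f(z + δ)` do not have the same sign
(`|f(z ± δ) - f(z)| ≥ δ |f'(z)|/2 = |f(z)|`); intermediate value theorem: a zero `θ`, `|θ - z| ≤ δ`, `|θ| ≤ 2`,
`|f'(θ)| ≥ |f'(z)|/2 ≥ 1/16`, `|f'(θ)| ≤ (3/2) |f'(z)|`, and `|y - θ x| = x |z - θ| ≤ 2 x |f(z)|/|f'(z)| ≤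
3 C1 H/|f'(θ)|`. (For the derivative of `f` use that `tc F z d 1` is the derivative of the polynomial
`z ↦ tc F z d 0`.) -/
def S_NWT : Prop :=
  ∀ d : ℕ, 2 ≤ d → ∃ A : ℝ, 1 ≤ A ∧ ∀ A' : ℝ, A ≤ A' →
    ∀ (H : ℕ) (F : MvPolynomial (Fin 2) ℤ), 1 ≤ H → F ∈ PBox d H → ∀ x y : ℤ,
    A' * (H : ℝ) ^ 3 ≤ x → |y| ≤ x → eval ![x, y] F = 0 →
    Flat d H F ∨ ∃ θ : ℝ, Th d F θ ∧ |(y : ℝ) - θ * x| ≤ A' * H / |tc F θ d 1|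

/-- **JOB SPG** (1.2 h), `theorem spg : S_GD1 → UI.S_TAY → S_SPG`. The spacing. PROOF. `K = A H/|f'(θ)|`,
`1 ≤ K ≤ 16 A H`. `u = p.2 - θ p.1`, `v` the same for `q`, `|u| ≤ K ≤ A K`, and by TAY
`Q d (nt d F θ) p.1 u = F(p)/|f'(θ)|`, at most `W' = W/|f'(θ)| ≤ K T^(d-3)`. GD1 (`T ≥ C H^2 ≥ C1 K^2`):
`|u - v| ≤ C1 (K^3/T^2 |p.1 - q.1| + K/T^2)`. If `p.1 = q.1` then `1 ≤ |p.2 - q.2| = |u - v| ≤ C1 K/T^2 < 1`. So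
`|p.1 - q.1| ≥ 1`; put `w = (p.2 - q.2)/(p.1 - q.1)`: `|w - θ| = |u - v|/|p.1 - q.1| ≤ 2 C1 K^3/T^2 ≤ C2 H^3/T^2`. Between
`w` and `θ` we have `|f' - f'(θ)| ≤ C3 H |w - θ| ≤ C H^4/T^2 ≤ 1/32` (`T ≥ C H^2`), so `|f'| ≥ 1/32`, and
`f(w) = f(w) - f(θ) = f'(ξ)(w - θ)`. `ld d F (p.1-q.1) (p.2-q.2) = (p.1 - q.1)^d f(w)`. If it is `0` then `w = θ`.
If not then it is an integer `≠ 0`, so `1 ≤ |p.1 - q.1|^d C H |w - θ| ≤ C |p.1 - q.1|^d H^4/T^2`. -/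
def S_SPG : Prop :=
  ∀ (d c : ℕ) (A : ℝ), 5 ≤ d → 1 ≤ A → ∃ C : ℝ, 1 ≤ C ∧
    ∀ (H : ℕ) (T W θ : ℝ) (F : MvPolynomial (Fin 2) ℤ),
    1 ≤ H → C * (H : ℝ) ^ 2 ≤ T → Gd d c A H F θ → 0 ≤ W → W ≤ A * H * T ^ (d - 3) →
    ∀ p ∈ Ap d F θ A H T W, ∀ q ∈ Ap d F θ A H T W, p ≠ q →
      p.1 ≠ q.1 ∧
      ((ld d F (p.1 - q.1) (p.2 - q.2) ≠ 0 ∧
        T ^ 2 ≤ C * (H : ℝ) ^ 4 * |(p.1 : ℝ) - q.1| ^ d) ∨
      (ld d F (p.1 - q.1) (p.2 - q.2) = 0 ∧ (p.2 : ℝ) - q.2 = θ * ((p.1 : ℝ) - q.1)))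

/-- **JOB COG** (0.7 h), `theorem cog : S_GD2 → S_SPG → UI.S_TAY → S_COG`. PROOF. If two of the three points are equal
the determinant vanishes. Otherwise `p.1, q.1, r.1` are different integers by SPG. With `u = p.2 - θ p.1` etc. the
determinant is `u (y - z) + v (z - x) + w (x - y)`, `x = p.1`, `y = q.1`, `z = r.1` (the part with `θ` cancels). With
`K = A H/|f'(θ)|`, `L K ≤ c0 A T`, `W' = W/|f'(θ)| ≤ K T^(d-3)` (as in SPG) GD2 bounds it by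
`C (K^3/T^3 L^3 + 3 L K/T^2) ≤ C (c0 A)^3 + 3 C c0 A/T < 1` for `c0` small. It is an integer, so `0`. -/
def S_COG : Prop :=
  ∀ (d c : ℕ) (A : ℝ), 5 ≤ d → 1 ≤ A → ∃ c0 C : ℝ, 0 < c0 ∧ 1 ≤ C ∧
    ∀ (H : ℕ) (T W L θ : ℝ) (F : MvPolynomial (Fin 2) ℤ),
    1 ≤ H → C * (H : ℝ) ^ 2 ≤ T → Gd d c A H F θ → 0 ≤ W → W ≤ A * H * T ^ (d - 3) →
    0 ≤ L → L * H ≤ c0 * T * |tc F θ d 1| →
    ∀ p ∈ Ap d F θ A H T W, ∀ q ∈ Ap d F θ A H T W, ∀ r ∈ Ap d F θ A H T W,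
      |(p.1 : ℝ) - q.1| ≤ L → |(q.1 : ℝ) - r.1| ≤ L → |(r.1 : ℝ) - p.1| ≤ L →
      p.2 * (q.1 - r.1) + q.2 * (r.1 - p.1) + r.2 * (p.1 - q.1) = 0

/-- **JOB RAT** (1.2 h), `theorem rat : S_GD4 → S_SPG → UI.S_TAY → S_RAT`. Rational directions. PROOF. SPG:
`θ = (p.2 - q.2)/(p.1 - q.1)`, so `θ = a/b` in lowest terms, `b ≥ 1`, `|a| ≤ 2 b`, `ld d F b a = b^d f(θ) = 0`. If
`b^d > H` then `F ∈ RS d H`. Let `b^d ≤ H`. `u = p.2 - θ p.1 = I/b`, `I` an integer. `tc F θ (d-1) 0 = n1/b^(d-1)` and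
`f'(θ) = tc F θ d 1 = n2/b^(d-1)` with integers `n1, n2`, `n2 ≠ 0`, so `kap d (tc F θ) = -n1/n2` and
`u - kap = (I n2 + n1 b)/(b n2)` is `0` or at least `1/(b |n2|) = 1/(b^d |f'(θ)|) ≥ 1/(C1 H^2)` in absolute value. By
GD4 with `K = A H/|f'(θ)| ≤ 16 A H` and `W' = W/|f'(θ)| ≤ K T^(d-4)`: `|u - kap| ≤ C (K^3/T + K T^(d-4)/T^(d-1)) ≤
C' H^3/T < 1/(C1 H^2)` (`T ≥ C H^5`). So `u = kap` and, again by GD4, `|rho d (tc F θ)| = |f'(θ)| |rho d (nt d F θ)| ≤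
C |f'(θ)| (K^4/T + K T^(d-3)/T^(d-1)) = C A H (K^3/T + 1/T^2) ≤ C' H^4/T ≤ 1/4`: `F ∈ RD d H`. -/
def S_RAT : Prop :=
  ∀ (d c : ℕ) (A : ℝ), 5 ≤ d → 1 ≤ A → ∃ C : ℝ, 1 ≤ C ∧
    ∀ (H : ℕ) (T W θ : ℝ) (F : MvPolynomial (Fin 2) ℤ),
    1 ≤ H → C * (H : ℝ) ^ 5 ≤ T → Gd d c A H F θ → 0 ≤ W → W ≤ A * H * T ^ (d - 4) →
    ∀ p ∈ Ap d F θ A H T W, ∀ q ∈ Ap d F θ A H T W, p ≠ q →
      ld d F (p.1 - q.1) (p.2 - q.2) = 0 → F ∈ RS d H ∨ F ∈ RD d H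

/-- **JOB TWG** (1 h), `theorem twg : S_GD3 → S_SPG → S_COG → S_RAT → UI.S_TAY → S_TWG`. No three points in a window
if `|rho| > 1/4`. PROOF. `T ≥ H^(d - 3/2) ≥ H^(11/2)`, so `T ≥ C H^5` for `H ≥ H0`, and `W ≤ A H T^(d-3)`. The three
first coordinates are different (SPG), the determinant vanishes (COG). By RAT (`F ∉ RS`, `F ∉ RD`) no difference of
two of the points is a zero of the leading form, so by SPG the smallest distance `b` of the first coordinates has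
`b^d ≥ T^2/(C H^4) ≥ H^(2d-7)/C`. GD3 with `K = A H/|f'(θ)| ≤ 16 A H`, `W' = W/|f'(θ)| ≤ K T^(d-4)`:
`1/4 < |rho d (tc F θ)| = |f'(θ)| |rho d (nt d F θ)| ≤ C |f'(θ)| (K^5/T + K/b^2) = C A H (K^4/T + 1/b^2) ≤
C' (H^5/T + H/b^2)`. The first part is `≤ C' H^(-1/2) ≤ 1/8`. So `b^2 ≤ 8 C' H`, `b^(2d) ≤ (8 C' H)^d`, but
`b^(2d) ≥ H^(4d-14)/C^2`, i.e. `H^(3d-14) ≤ C''`: false for `H ≥ H0` (`3d - 14 ≥ 7`). -/
def S_TWG : Prop :=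
  ∀ (d c : ℕ) (A : ℝ), 7 ≤ d → 1 ≤ A → ∃ c0 H0 : ℝ, 0 < c0 ∧ 1 ≤ H0 ∧
    ∀ (H : ℕ) (T W L θ : ℝ) (F : MvPolynomial (Fin 2) ℤ),
    H0 ≤ H → 0 < T → (H : ℝ) ^ (2 * d - 3) ≤ T ^ 2 → Gd d c A H F θ → F ∉ RS d H → F ∉ RD d H →
    0 ≤ W → W ≤ A * H * T ^ (d - 4) → 1 / 4 < |rho d (tc F θ)| →
    0 ≤ L → L * H ≤ c0 * T * |tc F θ d 1| →
    ∀ p ∈ Ap d F θ A H T W, ∀ q ∈ Ap d F θ A H T W, ∀ r ∈ Ap d F θ A H T W,
      |(p.1 : ℝ) - q.1| ≤ L → |(q.1 : ℝ) - r.1| ≤ L → |(r.1 : ℝ) - p.1| ≤ L →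
      p ≠ q → q ≠ r → r ≠ p → False

/-- **JOB CNG** (0.5 h), `theorem cng : S_TWG → UI.S_WND → S_CNG`. PROOF. `|f'(θ)| ≤ A H` (`Gd.k1`).
`L = c1 T |f'(θ)|/H` with `c1 = min(c0, 1/A)`, so `L ≤ T`. Each window of length `L` contains at most 2 points (TWG; a
set without three different points is finite with at most 2 elements), so WND gives
`4 T/L = (4/c1) H/|f'(θ)| ≤ (64/c1) H`. -/
def S_CNG : Prop :=
  ∀ (d c : ℕ) (A : ℝ), 7 ≤ d → 1 ≤ A → ∃ C H0 : ℝ, 1 ≤ C ∧ 1 ≤ H0 ∧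
    ∀ (H : ℕ) (T W θ : ℝ) (F : MvPolynomial (Fin 2) ℤ),
    H0 ≤ H → 0 < T → (H : ℝ) ^ (2 * d - 3) ≤ T ^ 2 → Gd d c A H F θ → F ∉ RS d H → F ∉ RD d H →
    0 ≤ W → W ≤ A * H * T ^ (d - 4) → 1 / 4 < |rho d (tc F θ)| →
    (Ap d F θ A H T W).Finite ∧ ((Ap d F θ A H T W).ncard : ℝ) ≤ C * H

/-- **JOB LIG** (0.9 h), `theorem lig : UI.S_LCK → S_LIG`. Points on a line. PROOF. If `S` has at most one element use
`C ≥ 1`. Otherwise take two of its points `P0 ≠ P1`, `P1 - P0 = g (b, a)` with `gcd(b, a) = 1`. All the points of `S`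
are collinear with `P0, P1`, so of the form `P0 + t (b, a)`, `t ∈ ℤ`. The polynomial `p(t) = F(P0 + t (b, a)) ∈ ℤ[t]`
has degree `≤ d` and its coefficient of `t^d` is `ld d F b a`, which is not `0` as
`g^d (ld d F b a) = ± ld d F (P1 - P0) ≠ 0`. LCK. (Compare `Pool.Agent.Q261.UI.LIN`.) -/
def S_LIG : Prop :=
  ∀ d : ℕ, 1 ≤ d → ∃ C : ℝ, 1 ≤ C ∧ ∀ F : MvPolynomial (Fin 2) ℤ, F.totalDegree ≤ d →
    ∀ B : ℝ, 1 ≤ B → ∀ S : Finset (ℤ × ℤ),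
    (∀ p ∈ S, |((eval ![p.1, p.2] F : ℤ) : ℝ)| ≤ B) →
    (∀ p ∈ S, ∀ q ∈ S, ∀ r ∈ S,
      p.2 * (q.1 - r.1) + q.2 * (r.1 - p.1) + r.2 * (p.1 - q.1) = 0) →
    (∀ p ∈ S, ∀ q ∈ S, p ≠ q → ld d F (p.1 - q.1) (p.2 - q.2) ≠ 0) →
    (#S : ℝ) ≤ C * B ^ ((1 : ℝ) / d)

/-- **JOB CZG** (0.8 h), `theorem czg : S_COG → S_RAT → S_LIG → UI.S_WND → S_CZG`. PROOF. `W = A H ≤ A H T^(d-4)`,
`T ≥ C H^5`. `L = c1 T |f'(θ)|/H` as in CNG. In a window all the points are collinear (COG), differences of different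
points are no zeros of the leading form (RAT), and `|F| ≤ A H`, so any finite set of points of the window has at most
`C (A H)^(1/d) ≤ C' H^(1/7)` elements (LIG); WND: `2 C' H^(1/7) T/L`. -/
def S_CZG : Prop :=
  ∀ (d c : ℕ) (A : ℝ), 7 ≤ d → 1 ≤ A → ∃ C : ℝ, 1 ≤ C ∧
    ∀ (H : ℕ) (T θ : ℝ) (F : MvPolynomial (Fin 2) ℤ),
    1 ≤ H → C * (H : ℝ) ^ 5 ≤ T → Gd d c A H F θ → F ∉ RS d H → F ∉ RD d H →
    (Ap d F θ A H T (A * H)).Finite ∧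
    ((Ap d F θ A H T (A * H)).ncard : ℝ) ≤
      C * (H / |tc F θ d 1|) * (H : ℝ) ^ ((1 : ℝ) / 7)

/-- **JOB NTH** (0.3 h), `theorem nth : S_NTH`. PROOF. `z ↦ tc F z d 0` is a polynomial of degree `≤ d`; it is not `0` if
its derivative `tc F θ d 1` is not `0` somewhere. -/
def S_NTH : Prop :=
  ∀ (d : ℕ) (F : MvPolynomial (Fin 2) ℤ), {θ : ℝ | Th d F θ}.Finite ∧ {θ : ℝ | Th d F θ}.ncard ≤ d

/-! ## Counting -/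

/-- **JOB CMG** (0.9 h), `theorem cmg : S_CMG`. The modification principle. PROOF. Use `dig 0 0 m (H+1) H p` of
`Q256.UP.PlA`, `p ∈ (Fin m → Fin (H+1)) × Fin (H+1)`: a polynomial in `x` of degree `m` with coefficients in
`[0, H]`, in `PBox m ((m+1) H)` (`dig_mem` with `d = m`), value at `P = (x, y)` at most `(m+1) H |x|^m`. Choose for
`F ∈ V` a point `P(F)` as in the hypothesis. Map `(F, p) ↦ F + dig p ∈ B`. The number of preimages of a given `F*` is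
at most the number of the elements of `cand F*`: for a preimage `P(F) ∈ cand F*`, and `F*(P(F)) = dig p (P(F))`
determines `p` (`dig_inj`, `|x| ≥ H + 1`), so `F`. (Compare `Pool.Agent.Q14.UI_CM`.) -/
def S_CMG : Prop :=
  ∀ (d H m : ℕ) (M : ℝ) (V B : Set (MvPolynomial (Fin 2) ℤ))
    (cand : MvPolynomial (Fin 2) ℤ → Set (ℤ × ℤ)),
    V ⊆ PBox d H → B.Finite → 0 ≤ M →
    (∀ F ∈ V, ∃ p : ℤ × ℤ, (H : ℤ) + 1 ≤ |p.1| ∧ eval ![p.1, p.2] F = 0 ∧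
      ∀ G ∈ PBox m ((m + 1) * H), |eval ![p.1, p.2] G| ≤ (m + 1) * H * |p.1| ^ m →
        F + G ∈ B ∧ p ∈ cand (F + G)) →
    (∀ F ∈ B, (cand F).Finite ∧ ((cand F).ncard : ℝ) ≤ M) →
    (Nat.card V : ℝ) * ((H : ℝ) + 1) ^ (m + 1) ≤ M * Nat.card B

/-- **JOB INV** (0.6 h), `theorem inv : S_INV`. PROOF. Coefficients of degree `d`, `d - 1`, `d - 2`. In the second part only
the coefficient of `x^(d-2)` changes, i.e. only `tc F θ (d-2) 0`, by `t`, and `kap` does not change. (Compare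
`Pool.Agent.Q31.UI_DEG`.) -/
def S_INV : Prop :=
  (∀ (d : ℕ) (F G : MvPolynomial (Fin 2) ℤ), 5 ≤ d → G.totalDegree ≤ d - 3 →
    (∀ (θ : ℝ) (j : ℕ), tc (F + G) θ d j = tc F θ d j) ∧
    (∀ b a : ℤ, ld d (F + G) b a = ld d F b a) ∧
    (∀ θ : ℝ, rho d (tc (F + G) θ) = rho d (tc F θ))) ∧
  (∀ (d : ℕ) (F : MvPolynomial (Fin 2) ℤ) (t : ℤ), 5 ≤ d →
    (∀ (θ : ℝ) (j : ℕ), tc (F + monomial (Finsupp.single 0 (d - 2)) t) θ d j = tc F θ d j) ∧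
    (∀ b a : ℤ, ld d (F + monomial (Finsupp.single 0 (d - 2)) t) b a = ld d F b a) ∧
    (∀ θ : ℝ, rho d (tc (F + monomial (Finsupp.single 0 (d - 2)) t) θ) = rho d (tc F θ) + t))

/-- **JOB LDF** (0.6 h), `theorem ldf : S_LDF`. PROOF. The first part is the definition. Second part: `F ↦ (lc d F, F₀)`,
`F₀ ∈ PBox (d-1) H` the part of degree `< d` of `F`, is injective, and `#PBox (d-1) H = (2H+1)^((d+1).choose 2)`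
(`card_pbox`), `(d+1).choose 2 = NC d - (d+1)`. -/
def S_LDF : Prop :=
  (∀ (d : ℕ) (F : MvPolynomial (Fin 2) ℤ) (z : ℝ) (j : ℕ), tc F z d j = pv d (lc d F) j z) ∧
  (∀ (d : ℕ) (F : MvPolynomial (Fin 2) ℤ) (b a : ℤ),
    ld d F b a = ∑ i : Fin (d + 1), lc d F i * b ^ (d - (i : ℕ)) * a ^ (i : ℕ)) ∧
  (∀ (d H : ℕ) (P : Set (Fin (d + 1) → ℤ)), 1 ≤ d →
    Nat.card {F | F ∈ PBox d H ∧ lc d F ∈ P} ≤
      Nat.card {c | c ∈ Vc d H ∧ c ∈ P} * (2 * H + 1) ^ (NC d - (d + 1)))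

/-- **JOB GRD** (0.8 h), `theorem grd : S_GRD`. PROOF. `pv d c 0 t = c 0 + c 1 t + ...`, `pv d c 1 t = c 1 + 2 c 2 t + ...`,
`pv d c 2 t = c 2 + 3 c 3 t + ...`. Given the `c i`, `i ≥ 2` (first part; `i ≥ 3` in the second one, and then `c 2` is in
an interval of length `2 Z`), `c 1` is in an interval of length `2 Y`, and then `c 0` in an interval of length `2 X`. An
interval of length `2 X` contains at most `2 X + 1` integers. -/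
def S_GRD : Prop :=
  ∀ (d H : ℕ) (t X Y Z : ℝ), 2 ≤ d → 0 ≤ X → 0 ≤ Y → 0 ≤ Z →
    (Nat.card {c | c ∈ Vc d H ∧ |pv d c 0 t| ≤ X ∧ |pv d c 1 t| ≤ Y} : ℝ) ≤
      (2 * X + 1) * (2 * Y + 1) * (2 * (H : ℝ) + 1) ^ (d - 1) ∧
    (Nat.card {c | c ∈ Vc d H ∧ |pv d c 0 t| ≤ X ∧ |pv d c 1 t| ≤ Y ∧ |pv d c 2 t| ≤ Z} : ℝ) ≤
      (2 * X + 1) * (2 * Y + 1) * (2 * Z + 1) * (2 * (H : ℝ) + 1) ^ (d - 2)

/-- **JOB CL1** (0.9 h), `theorem cl1 : S_GRD → S_CL1`. PROOF. `δ = H^(-1/3) ≤ 1`. `[-2, 2]` contains at most `4/δ + 2`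
grid points `t ∈ δ ℤ` and every `z` is within `δ` of one of them (`|t| ≤ 2`). Taylor's formula (exact, binomial theorem):
`pv d c j t = ∑ (l ≥ j) (l.choose j) pv d c l z (t - z)^(l-j)`, `|pv d c l z| ≤ C H`. So `|f(t)| ≤ 1 + δ + δ² H^(2/3) + C δ³ H ≤ C`,
`|f'(t)| ≤ 1 + 2 δ H^(2/3) + C δ² H ≤ C H^(1/3)`, `|pv d c 2 t| ≤ H^(2/3) + C δ H ≤ C H^(2/3)`. GRD: for each `t` at most
`C H^(1/3) H^(2/3) H^(d-2) = C H^(d-1)` vectors, in total `C H^(d-1+1/3)`. -/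
def S_CL1 : Prop :=
  ∀ d : ℕ, 2 ≤ d → ∃ C : ℝ, 1 ≤ C ∧ ∀ H : ℕ, 1 ≤ H →
    (Nat.card {c | c ∈ Vc d H ∧ ∃ z : ℝ, |z| ≤ 2 ∧ |pv d c 0 z| ≤ 1 ∧ |pv d c 1 z| ≤ 1 ∧
      |pv d c 2 z| ≤ (H : ℝ) ^ ((2 : ℝ) / 3)} : ℝ) ≤ C * (H : ℝ) ^ ((d : ℝ) - 2 / 3)

/-- **JOB CL2** (1.5 h), `theorem cl2 : S_CL2`. Nearly tangent lines (the conjugate function). Write `(s i, t i)` for `p i`,
`z i` for the points. PROOF. `h'` increases with slope in `[0.9 Λ, 1.1 Λ]` on `I = [α - 1/Λ, β + 1/Λ]`, so there is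
`w i` with `|w i - z i| ≤ 1/(7 Λ)` and `h'(w i) = - t i` (`0.9/7 > 1/8`). `G i := -(t i * w i + h(w i))`. As
`z ↦ t i z + h z` has derivative `0` at `w i`, its values at `z i` and `w i` differ by at most
`(1/2)(1.1 Λ)/(49 Λ²) ≤ 0.0113/Λ`; so `|s i - G i| ≤ 0.022/Λ`. For `i ≠ j`:
`G j - G i + w i (t j - t i) = h(w i) - h(w j) - h'(w j)(w i - w j) = (1/2) h''(ξ) (w i - w j)²` and
`t i - t j = -(h'(w i) - h'(w j)) = -h''(ξ')(w i - w j)`, so that it is `A_ij (t j - t i)²` with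
`0.37/Λ ≤ A_ij ≤ 0.68/Λ` (if `t i ≠ t j`). If `t i = t j` then `w i = w j`, `G i = G j`, `|s i - s j| ≤ 0.044/Λ < 1`, so
`p i = p j`, a contradiction. So the `t i` are different; let `t 1 < t 2 < t 3` after renumbering, `m = t 2 - t 1`,
`n = t 3 - t 2 ≥ 1`. The integer `D = n (s 1 - s 2) + m (s 3 - s 2)` differs from
`n (G 1 - G 2) + m (G 3 - G 2) = m n (A_21 m + A_23 n)` (the terms with `w 2` cancel) by at most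
`2 (m + n) 0.022/Λ ≤ 0.044 m n (m + n)/Λ`. Hence `0.32 m n (m+n)/Λ ≤ D ≤ 0.73 m n (m+n)/Λ`, `D > 0`, `D ≥ 1`,
`m n (m+n) ≥ Λ`, and `(m+n)³ ≥ m n (m+n)`. -/
def S_CL2 : Prop :=
  ∀ (h : Polynomial ℝ) (Λ α β : ℝ), 1 ≤ Λ → α ≤ β →
    (∀ z : ℝ, α - 1 / Λ ≤ z → z ≤ β + 1 / Λ → 9 / 10 * Λ ≤ h.derivative.derivative.eval z ∧
      h.derivative.derivative.eval z ≤ 11 / 10 * Λ) →
    ∀ p : Fin 3 → ℤ × ℤ, Function.Injective p →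
    (∀ i, ∃ z : ℝ, α ≤ z ∧ z ≤ β ∧
      |((p i).1 : ℝ) + (p i).2 * z + h.eval z| ≤ 1 / (100 * Λ) ∧
      |((p i).2 : ℝ) + h.derivative.eval z| ≤ 1 / 8) →
    ∃ i j, Λ ≤ |((p i).2 : ℝ) - (p j).2| ^ 3

/-- **JOB CL3** (1 h), `theorem cl3 : S_CL2 → S_CL3`. PROOF. `C ≥ 40 B`, `η = 1/(C H^(1/3))`. If the set is not empty there
is `z0 ∈ J = [α, α + η]` with `Λ := |h''(z0)| ≥ 2 H^(2/3)`, `Λ ≤ B H`. For `z` within `η + 1/Λ` of `z0` (so `|z| ≤ 4`):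
`|h''(z) - h''(z0)| ≤ B H (η + 1/Λ) ≤ H^(2/3)/40 + B H^(1/3)/2 ≤ Λ/10` for `H ≥ H0`. So CL2 applies to `h` or (if
`h''(z0) < 0`) to `-h` and the points `-p` (`H^(-2) ≤ 1/(100 Λ)` for `H ≥ 100 B`): there are no three different points of
the set with all differences of the second coordinates less than `Λ^(1/3)` in absolute value, i.e. at most two points in each
strip `X ≤ p.2 ≤ X + Λ^(1/3)/2`. The second coordinates are in an interval of length `1.1 Λ η + 1/4`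
(`|p.2 + h'(z)| ≤ 1/8`, `|h'(z) - h'(z')| ≤ 1.1 Λ η`), so there are at most `2 ((1.1 Λ η + 1/4)/(Λ^(1/3)/2) + 1) ≤
C' (η Λ^(2/3) + 1) ≤ C'' H^(1/3)` points. -/
def S_CL3 : Prop :=
  ∀ B : ℝ, 1 ≤ B → ∃ C H0 : ℝ, 1 ≤ C ∧ 1 ≤ H0 ∧ ∀ (H α : ℝ) (h : Polynomial ℝ),
    H0 ≤ H → |α| ≤ 2 →
    (∀ z : ℝ, |z| ≤ 4 → |h.derivative.derivative.eval z| ≤ B * H ∧
      |h.derivative.derivative.derivative.eval z| ≤ B * H) →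
    {p : ℤ × ℤ | ∃ z : ℝ, α ≤ z ∧ z ≤ α + 1 / (C * H ^ ((1 : ℝ) / 3)) ∧
      |(p.1 : ℝ) + p.2 * z + h.eval z| * H ^ 2 ≤ 1 ∧ |(p.2 : ℝ) + h.derivative.eval z| ≤ 1 / 8 ∧
      2 * H ^ ((2 : ℝ) / 3) ≤ |h.derivative.derivative.eval z|}.Finite ∧
    ({p : ℤ × ℤ | ∃ z : ℝ, α ≤ z ∧ z ≤ α + 1 / (C * H ^ ((1 : ℝ) / 3)) ∧
      |(p.1 : ℝ) + p.2 * z + h.eval z| * H ^ 2 ≤ 1 ∧ |(p.2 : ℝ) + h.derivative.eval z| ≤ 1 / 8 ∧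
      2 * H ^ ((2 : ℝ) / 3) ≤ |h.derivative.derivative.eval z|}.ncard : ℝ) ≤
      C * H ^ ((1 : ℝ) / 3)

/-- **JOB CL4** (0.9 h), `theorem cl4 : S_CL3 → S_CL4`. PROOF. For the `(2H+1)^(d-1)` choices of the `c i`, `i ≥ 2`, let
`h = ∑ (i ≥ 2) c i z^i` (`|h''|, |h'''| ≤ B H` on `[-4, 4]`, `B = B(d)`), so `pv d c 0 z = c 0 + c 1 z + h z`,
`pv d c 1 z = c 1 + h'(z)`, `2 pv d c 2 z = h''(z)`. Cover `[-2, 2]` by `≤ 5 C H^(1/3)` intervals of length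
`1/(C H^(1/3))`; CL3: `≤ C H^(1/3)` pairs `(c 0, c 1)` for each. In total `C' H^(d-1) H^(2/3)`. For `H < H0` there are at
most `(2 H0 + 1)^(d+1)` vectors. -/
def S_CL4 : Prop :=
  ∀ d : ℕ, 2 ≤ d → ∃ C : ℝ, 1 ≤ C ∧ ∀ H : ℕ, 1 ≤ H →
    (Nat.card {c | c ∈ Vc d H ∧ ∃ z : ℝ, |z| ≤ 2 ∧ |pv d c 0 z| * (H : ℝ) ^ 2 ≤ 1 ∧
      |pv d c 1 z| ≤ 1 / 8 ∧ (H : ℝ) ^ ((2 : ℝ) / 3) ≤ |pv d c 2 z|} : ℝ) ≤
      C * (H : ℝ) ^ ((d : ℝ) - 1 / 3)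

/-- **JOB CLS** (0.4 h), `theorem cls : S_CL1 → S_CL4 → S_LDF → S_CLS`. PROOF. `Flat d H F` depends on `lc d F` only (LDF);
the vectors are those of CL1 or CL4 (`|pv d c 0 z| ≤ 1/H² ≤ 1`). Multiply by `(2H+1)^(NC d - (d+1))`. -/
def S_CLS : Prop :=
  ∀ d : ℕ, 2 ≤ d → ∃ C : ℝ, 1 ≤ C ∧ ∀ H : ℕ, 1 ≤ H →
    (Nat.card {F | F ∈ PBox d H ∧ Flat d H F} : ℝ) ≤ C * (H : ℝ) ^ ((NC d : ℝ) - 4 / 3)

/-- **JOB PRD** (0.8 h), `theorem prd : S_GRD → S_PRD`. PROOF. For `D ≥ 1` the total number of vectors is at most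
`(2 c H + 1)^(d+1) ≤ C D H^(d+1)`. Let `D ≤ 1`, mesh `δ = D`: a grid point `t`, `|t| ≤ 2`, within `δ` of `θ`, at most
`4/D + 2` of them; Taylor: `|f(t)| ≤ δ D H + C δ² H ≤ C D² H`, `|f'(t)| ≤ D H + C δ H ≤ C D H`. GRD (first part): at most
`(6/D) (2 C D² H + 1)(2 C D H + 1)(2 c H + 1)^(d-1) ≤ C' (D² H + 1) H^d` (as `D H ≥ 1/16`), and
`D² H + 1 ≤ D H + 16 D H`. -/
def S_PRD : Prop :=
  ∀ d c : ℕ, 2 ≤ d → ∃ C : ℝ, 1 ≤ C ∧ ∀ (H : ℕ) (D : ℝ), 1 ≤ H → 1 / 16 ≤ D * H →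
    (Nat.card {v | v ∈ Vc d (c * H) ∧ ∃ θ : ℝ, |θ| ≤ 2 ∧ pv d v 0 θ = 0 ∧
      |pv d v 1 θ| ≤ D * H} : ℝ) ≤ C * D * (H : ℝ) ^ (d + 1)

/-- **JOB DGC** (0.8 h), `theorem dgc : S_PRD → S_LDF → S_INV → S_NTH → S_DGC`. PROOF. Map `(F, t) ↦ F + t x^(d-2)`,
`0 ≤ t ≤ H`, into `B = {F* ∈ PBox d ((c+1) H) : some |θ| ≤ 2, f*(θ) = 0, |f*'(θ)| ≤ D H}`, `#B ≤ C D H^(NC d)` by PRD and LDF.
A given `F*` has at most `d` preimages: `f* = f`, `θ` is one of the at most `d` numbers with `Th d F* θ` (NTH, INV), and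
`|rho d (tc F* θ) - t| ≤ 1/4` determines `t`. So `# (H+1) ≤ d #B`. -/
def S_DGC : Prop :=
  ∀ d c : ℕ, 5 ≤ d → ∃ C : ℝ, 1 ≤ C ∧ ∀ (H : ℕ) (D : ℝ), 1 ≤ H → 1 / 16 ≤ D * H →
    (Nat.card {F | F ∈ PBox d (c * H) ∧ ∃ θ : ℝ, Th d F θ ∧ |tc F θ d 1| ≤ D * H ∧
      |rho d (tc F θ)| ≤ 1 / 4} : ℝ) ≤ C * D * (H : ℝ) ^ (NC d - 1)

/-- **JOB RTC** (0.9 h), `theorem rtc : S_RTC`. Forms with a given rational zero. (1) PROOF. `modify` of `Q256.UP.PlA` with the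
modifications `G = p_0 x^d + ∑ (1 ≤ j ≤ d) p_j x^(d-j) y^j`, `0 ≤ p_0 ≤ H`, `0 ≤ p_j < min(b, H+1)` for `j ≥ 1`, in
`PBox d H` (`K = 1`). If `F + G = F' + G'` with `ld d F b a = ld d F' b a = 0` then
`∑ (p_j - p'_j) b^(d-j) a^j = 0`; mod `b`: `b ∣ (p_d - p'_d) a^d`, so `p_d = p'_d`; divide by `b`; and so on.
(2) `∑ c_i b^(d-i) a^i = 0`, `|c_i| ≤ H < b`: `b ∣ c_d`, so `c_d = 0`; divide by `b`; and so on. -/
def S_RTC : Prop :=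
  (∀ (d H b : ℕ) (a : ℤ), IsCoprime a (b : ℤ) → 1 ≤ b →
    Nat.card {F | F ∈ PBox d H ∧ ld d F b a = 0} * (min b (H + 1) ^ d * (H + 1)) ≤
      (2 * (2 * H) + 1) ^ NC d) ∧
  (∀ (d H : ℕ) (b a : ℤ) (F : MvPolynomial (Fin 2) ℤ), F ∈ PBox d H → IsCoprime a b →
    (H : ℤ) < b → ld d F b a = 0 → ∀ b' a' : ℤ, ld d F b' a' = 0)

/-- **JOB RSC** (0.9 h), `theorem rsc : S_RTC → S_RSC`. PROOF. If `b > H + 1` then the leading form vanishes (RTC (2)), and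
`F` is also in the set for `(b, a) = (H+1, 1)`. So `RS` is covered by the sets `{ld d F b a = 0}` with
`1 ≤ b ≤ H + 1`, `b^d > H`, `|a| ≤ 2 b`, `gcd(a, b) = 1`, each of size at most `(5H)^(NC d)/(b^d (H+1))`, for given `b` at most
`5 b` values of `a`; `b^(1-d) = b^(-2) (b^d)^(-(d-3)/d) ≤ b^(-2) H^(-4/7)` (`d ≥ 7`), `∑ b^(-2) ≤ 2`. -/
def S_RSC : Prop :=
  ∀ d : ℕ, 7 ≤ d → ∃ C : ℝ, 1 ≤ C ∧ ∀ H : ℕ, 1 ≤ H →
    (Nat.card {F | F ∈ PBox d H ∧ F ∈ RS d H} : ℝ) ≤ C * (H : ℝ) ^ ((NC d : ℝ) - 11 / 7)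

/-- **JOB RPC** (0.8 h), `theorem rpc : S_RTC → S_INV → S_RPC`. PROOF. For given `(b, a)` the map `(F, t) ↦ F + t x^(d-2)`,
`0 ≤ t ≤ H`, from `{F ∈ PBox d H : ld d F b a = 0, |rho d (tc F (a/b))| ≤ 1/4}` to `{F ∈ PBox d (2H) : ld d F b a = 0}` is
injective (INV: `|rho(F*) - t| ≤ 1/4` determines `t`), and the latter set has at most `(8H+1)^(NC d)/(2H+1)` elements
(RTC with `2H`), so the former has at most `C H^(NC d - 2)`. The number of pairs `(b, a)`, `b ≤ H^(1/d)`, `|a| ≤ 2 b`, is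
at most `5 H^(2/d) ≤ 5 H^(2/7)`. -/
def S_RPC : Prop :=
  ∀ d : ℕ, 7 ≤ d → ∃ C : ℝ, 1 ≤ C ∧ ∀ H : ℕ, 1 ≤ H →
    (Nat.card {F | F ∈ PBox d H ∧ F ∈ RD d H} : ℝ) ≤ C * (H : ℝ) ^ ((NC d : ℝ) - 12 / 7)

/-- **JOB VND** (1.2 h), `theorem vnd : S_TCB → S_CNG → S_NTH → S_INV → S_CMG → S_VND`. PROOF. `m = d - 4`, `c = d - 2`. CMG with
`V = VN d A H T`, `B = {F ∈ PBox d (c H) : F ∉ RS d H, F ∉ RD d H}`, `cand F* = {p : T ≤ p.1 ≤ 2T, |p.2| ≤ p.1, some θ with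
Th d F* θ, 1/4 < |rho d (tc F* θ)|, |p.2 - θ p.1| ≤ A H/|tc F* θ d 1|, |F*(p)| ≤ A H T^(d-4)}`. For `F ∈ V` take `p` its zero:
for `G ∈ PBox m ((m+1) H)`, `F + G ∈ PBox d (c H)`; by INV (`m ≤ d - 3`) `F + G` has the same `ld`, `tc _ θ d _`, `rho`, so
`F + G ∈ B`, `p ∈ cand (F + G)` as `|(F+G)(p)| = |G(p)| ≤ (m+1) H (2T)^m ≤ A H T^(d-4)` if `A ≥ (d-3) 2^(d-4)`. `cand F*` is a
union of at most `d` sets (NTH) contained in `Ap d F* θ A H T (A H T^(d-4))`, each of at most `C H` points (TCB, CNG) for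
`H ≥ H0` (`A ≥` the constant of TCB for `c`). So `#VN (H+1)^(d-3) ≤ C H (2 c H + 1)^(NC d)`, `#VN ≤ C H^(NC d - d + 4) ≤
C H^(NC d - 3)`. `(H : ℤ) + 1 ≤ T` as `T² ≥ H^(2d-3)`, `H ≥ 2`. For `H < H0` the box has at most `C` elements. -/
def S_VND : Prop :=
  ∀ d : ℕ, 7 ≤ d → ∃ A0 : ℝ, 1 ≤ A0 ∧ ∀ A : ℝ, A0 ≤ A → ∃ C : ℝ, 1 ≤ C ∧ ∀ H T : ℕ, 1 ≤ H →
    H ^ (2 * d - 3) ≤ T ^ 2 → (Nat.card (VN d A H T) : ℝ) ≤ C * (H : ℝ) ^ (NC d - 3)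

/-- **JOB VDG** (1.3 h), `theorem vdg : S_TCB → S_CZG → S_NTH → S_INV → S_CMG → S_DGC → S_VDG`. PROOF. For `g ≥ 1/16` let `V_g` be
the part of `VD d A H T` with `g ≤ |tc F θ d 1| ≤ 2 g` (for the `θ` in the definition). CMG with `m = 0`,
`B = {F* ∈ PBox d (2H) : F* ∉ RS d H, F* ∉ RD d H, some θ with Th d F* θ, |tc F* θ d 1| ≤ 2 g, |rho d (tc F* θ)| ≤ 1/4}`,
`cand F* = {p : some θ with Th d F* θ, g ≤ |tc F* θ d 1|, p ∈ Ap d F* θ A H T (A H)}` (INV for the constants `G`;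
`|(F+G)(p)| = |G(p)| ≤ H ≤ A H`). By TCB (`c = 2`), CZG and NTH `cand F*` has at most `d C (H/g) H^(1/7)` points (`T ≥ C H^5` for
`H ≥ H0` as `T² ≥ H^(2d-3) ≥ H^11`), and `#B ≤ C (2 g/H) H^(NC d - 1)` by DGC (`c = 2`, `D = 2 g/H`). So
`#V_g (H+1) ≤ C (H/g) H^(1/7) (g/H) H^(NC d - 1)`, `#V_g ≤ C H^(NC d - 2 + 1/7)`. `1/16 ≤ |tc F θ d 1| ≤ C H`: the values
`g = 2^i/16`, `i ≤ C (1 + log H) ≤ C' H^(1/42)`, suffice; `1/7 + 1/42 = 1/6`. -/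
def S_VDG : Prop :=
  ∀ d : ℕ, 7 ≤ d → ∃ A0 : ℝ, 1 ≤ A0 ∧ ∀ A : ℝ, A0 ≤ A → ∃ C : ℝ, 1 ≤ C ∧ ∀ H T : ℕ, 1 ≤ H →
    H ^ (2 * d - 3) ≤ T ^ 2 → (Nat.card (VD d A H T) : ℝ) ≤ C * (H : ℝ) ^ ((NC d : ℝ) - 11 / 6)

/-- **JOB DYG** (1 h), `theorem dyg : S_NWT → S_CLS → S_RSC → S_RPC → S_VND → S_VDG → S_DYG`. PROOF. Let `A` be larger than the
constants of NWT, VND, VDG. Let `H ≥ H0` (for `H < H0` the box has at most `C` elements), so that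
`T0 ≥ H^(d - 3/2) ≥ A H^3`. `F ∈ ZG d H T0 ((K H)^e)` with its zero `(x, y)`: by NWT either `Flat d H F` (CLS:
`C H^(NC d - 4/3)`), or there is `θ`; then either `F ∈ RS` (RSC) or `F ∈ RD` (RPC) or, with `T = 2^n T0`, `T ≤ x ≤ 2T`,
`F ∈ VN d A H T` or `F ∈ VD d A H T`; the number of the `n` is at most `e log(K H)/log 2 + 1 ≤ C H^(1/12)`, and
`11/6 - 1/12 = 7/4 ≥ 4/3`. -/
def S_DYG : Prop :=
  ∀ d : ℕ, 7 ≤ d → ∀ K e : ℕ, ∃ C : ℝ, 1 ≤ C ∧ ∀ H T0 : ℕ, 1 ≤ H → H ^ (2 * d - 3) ≤ T0 ^ 2 →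
    (Nat.card (ZG d H T0 ((K * H) ^ e)) : ℝ) ≤ C * (H : ℝ) ^ ((NC d : ℝ) - 4 / 3)

/-! ## Very large points, and the end -/

/-- **JOB GEL** (1 h), `theorem gel : S_GEL`. Gelfond's inequality in two variables. PROOF. Kronecker's substitution
`κ(A) = A(t, t^(d+1)) ∈ ℤ[t]`: a ring homomorphism (`aeval ![X, X^(d+1)]`), and on polynomials of degree `≤ d` (so `A`, `B`,
`A B`, as degrees add) it maps different monomials to different powers of `t`, so the coefficients of `κ(A)` are those of `A`.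
`κ(A) κ(B) = κ(A B)` has degree `≤ d (d+1)`, and Gelfond's inequality in one variable (Mahler measures: `‖coeff‖ ≤
2^n M(A)`, `M(A) M(B) = M(A B) ≤ √(n+1) max`; in Mathlib `norm_coeff_le_choose_mul_mahlerMeasure`, `mahlerMeasure_mul`,
`mahlerMeasure_le_sqrt_natDegree_add_one_mul_supNorm`; or `Pool.Agent.Q256.LN.Gel`). -/
def S_GEL : Prop :=
  ∀ d : ℕ, ∃ C : ℝ, 1 ≤ C ∧ ∀ A B : MvPolynomial (Fin 2) ℤ, A ≠ 0 → B ≠ 0 →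
    (A * B).totalDegree ≤ d → ∀ H : ℝ, (∀ γ, |(((A * B).coeff γ : ℤ) : ℝ)| ≤ H) →
    ∀ α β, |((A.coeff α : ℤ) : ℝ)| * |((B.coeff β : ℤ) : ℝ)| ≤ C * H

/-- **JOB RED** (1.3 h), `theorem red : S_GEL → S_RED`. Reducible polynomials. PROOF. `F` has degree `d ≥ 1`, so it is neither `0`
nor a unit over `ℚ`; if it is reducible over `ℚ` then `F = A B` with `A, B ∈ ℤ[x, y]` of degrees `r, s ≥ 1`, `r + s = d` (clear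
denominators, `n F = A B`, and cancel the primes dividing `n`: a prime number `p ∣ A B` divides `A` or `B`). By GEL
`h(A) h(B) ≤ C H` (`h` = the largest absolute value of a coefficient, `≥ 1`). With `2^i ≤ h(A) < 2^(i+1)`:
`h(B) ≤ C H/2^i`, so there are at most `(2^(i+2) + 1)^(NC r) (2 C H/2^i + 1)^(NC s) ≤ C' 2^(i NC r) (H/2^i)^(NC s) ≤
C' H^(max(NC r, NC s)) ≤ C' H^(NC (d-1)) = C' H^(NC d - d - 1)` pairs (`2^i ≤ C H`; the last step as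
`X^a (H/X)^b ≤ H^max(a,b)` for `1 ≤ X ≤ H`), and the number of the `i` and `r` is at most `C log H + C ≤ C H`. -/
def S_RED : Prop :=
  ∀ d : ℕ, 2 ≤ d → ∃ C : ℝ, 1 ≤ C ∧ ∀ H : ℕ, 1 ≤ H →
    (Nat.card {F | F ∈ PBox d H ∧ F.totalDegree = d ∧
      ¬ Irreducible (MvPolynomial.map (Int.castRingHom ℚ) F)} : ℝ) ≤ C * (H : ℝ) ^ ((NC d : ℝ) - 2)

/-- **JOB SQF** (1.3 h), `theorem sqf : S_GEL → S_LDF → S_SQF`. PROOF. The leading form `Φ` of `F` (degree exactly `d`) is divisible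
by a square over `ℚ`: `Φ = q² g` with `q` not constant. As in RED one may take `q, g ∈ ℤ[x, y]`, and forms (take the parts of
highest degree: `Φ` is homogeneous), of degrees `r ≥ 1` and `s = d - 2 r`. By GEL (twice, for `q · (q g)` and `q · g`):
`h(q)² h(g) ≤ C H`. With `2^i ≤ h(q) < 2^(i+1)`, `4^i ≤ C H`: at most `C' 2^(i (r+1)) (H/4^i)^(s+1)` pairs. For `X = 2^i`,
`1 ≤ X ≤ C √H`: `X^(r+1) (H/X²)^(s+1) ≤ C' H^(max(s+1, (r+1)/2)) ≤ C' H^(d-1)` (extremes at `X = 1` and `X = √H`;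
`s + 1 ≤ d - 1`, `(r+1)/2 ≤ d - 1`). The number of the `i`, `r` is at most `C log H + C ≤ C' H^(1/2)`. So at most `C H^(d - 1/2)`
leading forms, LDF. -/
def S_SQF : Prop :=
  ∀ d : ℕ, 2 ≤ d → ∃ C : ℝ, 1 ≤ C ∧ ∀ H : ℕ, 1 ≤ H →
    (Nat.card {F | F ∈ PBox d H ∧ F.totalDegree = d ∧
      ¬ Squarefree (MvPolynomial.map (Int.castRingHom ℚ) (homogeneousComponent d F))} : ℝ) ≤
      C * (H : ℝ) ^ ((NC d : ℝ) - 3 / 2)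

/-- **JOB LGG** (0.8 h), `theorem lgg : S_RED → S_SQF → S_LGG`. Points of size more than a power of `H`, by the starting result
`Pool.Agent.Results.MP_2d259b_nt.FewExceptionalCurves.result` (import it; the closure is about 80 files;
`python3 outputs/live/tools/need.py`). PROOF. The `F ∈ PBox d H` of degree `< d` are in `PBox (d-1) H`, `(2H+1)^(NC d - d - 1)`
elements. The `F` of degree `d` which are reducible over `ℚ` or have a leading form which is not squarefree: RED, SQF. For the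
other ones `(d+1) ∑ |coefficients| ≤ (d+1) NC d * H =: K0 H`, so with `e = 10^11 36^d (d+1)^13` a zero of size more than
`(K H)^e`, `K ≥ K0`, makes `F` one of the at most `C (2H+1)^(4d-2)` exceptional ones, and `4 d - 2 ≤ NC d - 2`. -/
def S_LGG : Prop :=
  ∀ d : ℕ, 7 ≤ d → ∃ K0 e : ℕ, ∃ C : ℝ, 1 ≤ C ∧ ∀ K H : ℕ, K0 ≤ K → 1 ≤ H →
    (Nat.card {F | F ∈ PBox d H ∧ ∃ x y : ℤ, (((K * H) ^ e : ℕ) : ℤ) < max |x| |y| ∧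
      eval ![x, y] F = 0} : ℝ) ≤ C * (H : ℝ) ^ ((NC d : ℝ) - 3 / 2)

/-- **JOB SYG** (0.7 h), `theorem syg : S_SYG`. PROOF. A zero `(x, y)` of `F` with `a ≤ max(|x|, |y|) ≤ b` is of one of the four
kinds `x ≥ |y|`, `-x ≥ |y|`, `y ≥ |x|`, `-y ≥ |x|`. Correspondingly `F(x, y)`, `F(-x, -y)`, `F(y, x)`, `F(-y, -x)` is in
`ZG d H a b`; these maps `F ↦ …` are injective and preserve `PBox d H`. (Compare `Pool.Agent.Q290.UI_SYM`.) -/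
def S_SYG : Prop :=
  ∀ d H a b : ℕ,
    Nat.card {F | F ∈ PBox d H ∧ ∃ x y : ℤ, (a : ℤ) ≤ max |x| |y| ∧ max |x| |y| ≤ b ∧
      eval ![x, y] F = 0} ≤ 4 * Nat.card (ZG d H a b)

/-- **JOB TLG** (0.8 h), `theorem tlg : S_DYG → S_LGG → S_SYG → S_TLG`. PROOF. `T1` = the least integer `≥ H^(d - 3/2)`, so
`H^(2d-3) ≤ T1²`, `T1 ≤ 2 H^(d-3/2)`. Zeros of size in `(R, T1]`: the first part of
`Pool.Agent.Results.MP_821da1_nt.UniquePoint.result d _` with `ε = 1/4` (import it; `Polys d H = PBox d H` by definition,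
`(d+1)(d+2)/2 = NC d`): at most `C H^(NC d - 1) ((R+1)^(-(d-2)) + T1 H^(1/4 - (d-1)))`, `T1 H^(1/4-d+1) ≤ 2 H^(-1/4)`. Size from
`T1` to `(K H)^e`: SYG, DYG (`K`, `e` of LGG). Larger: LGG. `H^(NC d - 4/3), H^(NC d - 3/2) ≤ H^(NC d - 1) H^(-1/4)`. -/
def S_TLG : Prop :=
  ∀ d : ℕ, 7 ≤ d → ∃ C : ℝ, 1 ≤ C ∧ ∀ H R : ℕ, 1 ≤ H →
    (Nat.card {F | F ∈ PBox d H ∧ ∃ x y : ℤ, (R : ℤ) < max |x| |y| ∧ eval ![x, y] F = 0} : ℝ) ≤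
      C * (H : ℝ) ^ (NC d - 1) * (1 / ((R : ℝ) + 1) ^ (d - 2) + (H : ℝ) ^ (-(1 / 4 : ℝ)))

/-- **JOB UNG** (0.7 h), `theorem ung : S_TLG → S_UNG`. PROOF. `R` = the integral part of `H^(1/20)`. If `F` has two different zeros
then either one of them has size `> R`: TLG, `1/(R+1)^(d-2) ≤ H^(-(d-2)/20) ≤ H^(-1/4)` (`d ≥ 7`); or both have size `≤ R`: at most
`(2R+1)^4 ≤ 81 H^(1/5)` pairs, for each at most `(6H+1)^(NC d)/(H+1)²` polynomials (`count_two` of `Q256.UP.PlA`). -/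
def S_UNG : Prop :=
  ∀ d : ℕ, 7 ≤ d → ∃ C : ℝ, 1 ≤ C ∧ ∀ H : ℕ, 1 ≤ H →
    (Nat.card {F | F ∈ PBox d H ∧ {p : ℤ × ℤ | eval ![p.1, p.2] F = 0}.Nontrivial} : ℝ) ≤
      C * (H : ℝ) ^ (NC d - 1) * (H : ℝ) ^ (-(1 / 4 : ℝ))

end Pool.Agent.Q256.UG
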