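import Mathlib
import Pool.Agent.Q256.UP.PlE

set_option autoImplicit false

/-!
# Almost all plane curves with an integer point have exactly one of moderate size

Let `d ≥ 3` and let `F` run through the integral polynomials in two variables of degree at most
`d` with coefficients of absolute value at most `H`. We show without any hypothesis that among
those `F` for which the curve `F = 0` has an integer point of size at most `H ^ (d - 1 - η)`,
all but a proportion `O(H ^ (-δ))` have exactly one such point, and that this point has size at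
most `R` except for a proportion `O(R ^ (-(d - 2)) + H ^ (-δ))`.
-/

namespace Pool.Agent.Q256.UG.Unq

open MvPolynomial

/-- The polynomials in `ℤ[x, y]` of degree at most `d` all of whose coefficients have absolute
value at most `H`. -/
def Polys (d H : ℕ) : Set (MvPolynomial (Fin 2) ℤ) :=
  {F | F.totalDegree ≤ d ∧ ∀ α, |F.coeff α| ≤ H}

/-- The integer points `(x, y)` of size `max(|x|, |y|)` at most `T` on the curve `F = 0`. -/
def Points (F : MvPolynomial (Fin 2) ℤ) (T : ℕ) : Set (ℤ × ℤ) :=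
  {p | max |p.1| |p.2| ≤ T ∧ eval ![p.1, p.2] F = 0}

open Pool.Agent.Q256.UP in
theorem tail_le (d H R T : ℕ) :
    Nat.card {F | F ∈ Polys d H ∧ ∃ p ∈ Points F T, (R : ℤ) < max |p.1| |p.2|} ≤
      Nat.card (ZS d H R T) := by
  simp only [Nat.card_coe_set_eq]
  apply Set.ncard_le_ncard _ ((finite_pbox d H).subset (fun F hF => hF.1))
  rintro F ⟨hF, p, hp, hR⟩
  exact ⟨hF, ![p.1, p.2], by simpa using hR, by simpa using hp.1, hp.2⟩

open Pool.Agent.Q256.UP in
theorem two_le (d H T : ℕ) :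
    Nat.card {F | F ∈ Polys d H ∧ (Points F T).Nontrivial} ≤ Nat.card (Z2 d H T) := by
  simp only [Nat.card_coe_set_eq]
  apply Set.ncard_le_ncard _ ((finite_pbox d H).subset (fun F hF => hF.1))
  rintro F ⟨hF, p, hp, p', hp', hne⟩
  refine ⟨hF, ![p.1, p.2], ![p'.1, p'.2], ?_, by simpa using hp.1, by simpa using hp'.1, hp.2,
    hp'.2⟩
  intro h
  apply hne
  have h0 := congrFun h 0
  have h1 := congrFun h 1
  simp only [Matrix.cons_val_zero, Matrix.cons_val_one] at h0 h1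
  exact Prod.ext h0 h1

open Pool.Agent.Q256.UP Pool.Agent.Q256.CI Finset in
theorem one_ge (d H T : ℕ) : (2 * H + 1) ^ ((d + 2).choose 2 - 1) ≤
    Nat.card {F | F ∈ Polys d H ∧ (Points F T).Nonempty} := by
  classical
  have h1 : #((PS d).erase 0) = (d + 2).choose 2 - 1 := by
    rw [card_erase_of_mem, card_PS]
    rw [mem_PS]; simp
  rw [← h1, ← card_sbox, Nat.card_coe_set_eq, Nat.card_coe_set_eq]
  apply Set.ncard_le_ncard _ ((finite_pbox d H).subset (fun F hF => hF.1))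
  rintro F ⟨hF1, hF2⟩
  have hF : F ∈ PBox d H := by
    rw [pbox_eq]
    exact ⟨hF1, hF2.trans (erase_subset _ _)⟩
  refine ⟨hF, (0, 0), ?_, ?_⟩
  · simp
  · rw [eval_eq']
    refine sum_eq_zero (fun α hα => ?_)
    have h2 := (mem_erase.1 (hF2 hα)).1
    have h3 : ∃ k, α k ≠ 0 := by
      by_contra h
      push Not at h
      exact h2 (Finsupp.ext h)
    obtain ⟨k, hk⟩ := h3
    have h4 : ∏ i, (![((0 : ℤ), (0 : ℤ)).1, ((0 : ℤ), (0 : ℤ)).2] : Fin 2 → ℤ) i ^ α i = 0 := by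
      apply prod_eq_zero (mem_univ k)
      fin_cases k
      · simpa using hk
      · simpa using hk
    rw [h4, mul_zero]

/-- Let `d ≥ 3` and `N = (d + 1)(d + 2)/2` and let `F` run through the integral polynomials in
two variables of degree at most `d` with coefficients of absolute value at most `H ≥ 1`.
Part 1. For all `R`, `T` at most `C H^(N-1) ((R+1)^(-(d-2)) + T H^(ε-(d-1)))` of the curves
`F = 0` have an integer point of size in `(R, T]`, and at most
`C H^(N-1) (H^(-(d-2)/(d+2)) + T H^(ε-(d-1)))` of them have two different integer points of size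
at most `T`, whereas at least `(2H+1)^(N-1)` have an integer point of size at most `T`.
Part 2. Let `η > 0` and `T ≤ H^(d-1-η)`. Among the curves `F = 0` which have an integer point of
size at most `T` all but a proportion `C H^(-δ)` have exactly one such point, and all but a
proportion `C (R+1)^(-(d-2)) + C H^(-δ)` have no integer point of size in `(R, T]`. -/
theorem unique_point (d : ℕ) (hd : 3 ≤ d) :
    (∀ ε : ℝ, 0 < ε → ∃ C : ℝ, 0 < C ∧ ∀ H : ℕ, 1 ≤ H →
      (∀ R T : ℕ, (Nat.card {F | F ∈ Polys d H ∧ ∃ p ∈ Points F T, (R : ℤ) < max |p.1| |p.2|} : ℝ) ≤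
        C * (H : ℝ) ^ ((d + 1) * (d + 2) / 2 - 1) *
          (1 / ((R : ℝ) + 1) ^ (d - 2) + T * (H : ℝ) ^ (ε - ((d : ℝ) - 1)))) ∧
      (∀ T : ℕ, (Nat.card {F | F ∈ Polys d H ∧ (Points F T).Nontrivial} : ℝ) ≤
        C * (H : ℝ) ^ ((d + 1) * (d + 2) / 2 - 1) *
          ((H : ℝ) ^ (-(((d : ℝ) - 2) / (d + 2))) + T * (H : ℝ) ^ (ε - ((d : ℝ) - 1)))) ∧
      (∀ T : ℕ, (2 * H + 1) ^ ((d + 1) * (d + 2) / 2 - 1) ≤
        Nat.card {F | F ∈ Polys d H ∧ (Points F T).Nonempty})) ∧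
    (∀ η : ℝ, 0 < η → ∃ C δ : ℝ, 0 < C ∧ 0 < δ ∧ ∀ H T : ℕ, 1 ≤ H →
      (T : ℝ) ≤ (H : ℝ) ^ ((d : ℝ) - 1 - η) →
      (Nat.card {F | F ∈ Polys d H ∧ (Points F T).Nontrivial} : ℝ) ≤
        C * (H : ℝ) ^ (-δ) * Nat.card {F | F ∈ Polys d H ∧ (Points F T).Nonempty} ∧
      ∀ R : ℕ, (Nat.card {F | F ∈ Polys d H ∧ ∃ p ∈ Points F T, (R : ℤ) < max |p.1| |p.2|} : ℝ) ≤
        C * (1 / ((R : ℝ) + 1) ^ (d - 2) + (H : ℝ) ^ (-δ)) *
          Nat.card {F | F ∈ Polys d H ∧ (Points F T).Nonempty}) := by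
  have hN : (d + 1) * (d + 2) / 2 = (d + 2).choose 2 := by
    rw [Nat.choose_two_right]
    congr 1
    have : d + 2 - 1 = d + 1 := by omega
    rw [this, mul_comm]
  rw [hN]
  have hpart : ∀ ε : ℝ, 0 < ε → ∃ C : ℝ, 0 < C ∧ ∀ H : ℕ, 1 ≤ H →
      (∀ R T : ℕ, (Nat.card {F | F ∈ Polys d H ∧ ∃ p ∈ Points F T, (R : ℤ) < max |p.1| |p.2|} : ℝ) ≤
        C * (H : ℝ) ^ ((d + 2).choose 2 - 1) *
          (1 / ((R : ℝ) + 1) ^ (d - 2) + T * (H : ℝ) ^ (ε - ((d : ℝ) - 1)))) ∧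
      (∀ T : ℕ, (Nat.card {F | F ∈ Polys d H ∧ (Points F T).Nontrivial} : ℝ) ≤
        C * (H : ℝ) ^ ((d + 2).choose 2 - 1) *
          ((H : ℝ) ^ (-(((d : ℝ) - 2) / (d + 2))) + T * (H : ℝ) ^ (ε - ((d : ℝ) - 1)))) ∧
      (∀ T : ℕ, (2 * H + 1) ^ ((d + 2).choose 2 - 1) ≤
        Nat.card {F | F ∈ Polys d H ∧ (Points F T).Nonempty}) := by
    intro ε hε
    obtain ⟨C1, hC1, h1⟩ := Pool.Agent.Q256.UP.tail_main d hd ε hε
    obtain ⟨C2, hC2, h2⟩ := Pool.Agent.Q256.UP.two_main d hd ε hε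
    refine ⟨C1 + C2, by positivity, fun H hH => ?_⟩
    have hH0 : (0 : ℝ) < H := by exact_mod_cast hH
    have hE : ∀ T : ℕ, (T : ℝ) * (H : ℝ) ^ ε * ((H : ℝ) ^ (d - 1))⁻¹ =
        T * (H : ℝ) ^ (ε - ((d : ℝ) - 1)) := by
      intro T
      rw [Real.rpow_sub hH0, mul_assoc, ← div_eq_mul_inv]
      congr 2
      rw [← Real.rpow_natCast, Nat.cast_sub (by omega), Nat.cast_one]
    refine ⟨fun R T => ?_, fun T => ?_, fun T => one_ge d H T⟩
    · have h3 : (Nat.card {F | F ∈ Polys d H ∧ ∃ p ∈ Points F T, (R : ℤ) < max |p.1| |p.2|} : ℝ) ≤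
          Nat.card (Pool.Agent.Q256.UP.ZS d H R T) := by exact_mod_cast tail_le d H R T
      refine (h3.trans (h1 H R T hH)).trans ?_
      rw [hE, one_div]
      apply mul_le_mul_of_nonneg_right _ (by positivity)
      apply mul_le_mul_of_nonneg_right _ (by positivity)
      linarith
    · have h3 : (Nat.card {F | F ∈ Polys d H ∧ (Points F T).Nontrivial} : ℝ) ≤
          Nat.card (Pool.Agent.Q256.UP.Z2 d H T) := by exact_mod_cast two_le d H T
      refine (h3.trans (h2 H T hH)).trans ?_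
      rw [hE]
      apply mul_le_mul_of_nonneg_right _ (by positivity)
      apply mul_le_mul_of_nonneg_right _ (by positivity)
      linarith
  refine ⟨hpart, fun η hη => ?_⟩
  obtain ⟨C, hC, h⟩ := hpart (η / 2) (by positivity)
  have hd3 : (3 : ℝ) ≤ d := by exact_mod_cast hd
  refine ⟨2 * C, min (((d : ℝ) - 2) / (d + 2)) (η / 2), by positivity,
    lt_min (div_pos (by linarith) (by linarith)) (by positivity), ?_⟩
  intro H T hH hT
  have hH0 : (0 : ℝ) < H := by exact_mod_cast hH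
  have hH1 : (1 : ℝ) ≤ H := by exact_mod_cast hH
  obtain ⟨h1, h2, h3⟩ := h H hH
  set δ : ℝ := min (((d : ℝ) - 2) / (d + 2)) (η / 2) with hδ
  have hS : (H : ℝ) ^ ((d + 2).choose 2 - 1) ≤
      (Nat.card {F | F ∈ Polys d H ∧ (Points F T).Nonempty} : ℝ) := by
    have h4 : (((2 * H + 1) ^ ((d + 2).choose 2 - 1) : ℕ) : ℝ) ≤
      (Nat.card {F | F ∈ Polys d H ∧ (Points F T).Nonempty} : ℝ) := by exact_mod_cast h3 T
    refine le_trans ?_ h4
    push_cast
    apply pow_le_pow_left₀ hH0.le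
    linarith
  have hTb : (T : ℝ) * (H : ℝ) ^ (η / 2 - ((d : ℝ) - 1)) ≤ (H : ℝ) ^ (-δ) := by
    calc (T : ℝ) * (H : ℝ) ^ (η / 2 - ((d : ℝ) - 1)) ≤
          (H : ℝ) ^ ((d : ℝ) - 1 - η) * (H : ℝ) ^ (η / 2 - ((d : ℝ) - 1)) :=
          mul_le_mul_of_nonneg_right hT (by positivity)
      _ = (H : ℝ) ^ (-(η / 2)) := by rw [← Real.rpow_add hH0]; congr 1; ring
      _ ≤ _ := by
          apply Real.rpow_le_rpow_of_exponent_le hH1
          have := min_le_right (((d : ℝ) - 2) / (d + 2)) (η / 2)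
          linarith
  have hκ : (H : ℝ) ^ (-(((d : ℝ) - 2) / (d + 2))) ≤ (H : ℝ) ^ (-δ) := by
    apply Real.rpow_le_rpow_of_exponent_le hH1
    have := min_le_left (((d : ℝ) - 2) / (d + 2)) (η / 2)
    linarith
  set W : ℝ := (Nat.card {F | F ∈ Polys d H ∧ (Points F T).Nonempty} : ℝ) with hW
  have hW0 : 0 ≤ W := by positivity
  refine ⟨(h2 T).trans ?_, fun R => (h1 R T).trans ?_⟩
  · calc C * (H : ℝ) ^ ((d + 2).choose 2 - 1) * ((H : ℝ) ^ (-(((d : ℝ) - 2) / (d + 2))) +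
          T * (H : ℝ) ^ (η / 2 - ((d : ℝ) - 1))) ≤ C * W * ((H : ℝ) ^ (-δ) + (H : ℝ) ^ (-δ)) := by
          apply mul_le_mul (mul_le_mul_of_nonneg_left hS hC.le) (add_le_add hκ hTb)
            (by positivity) (by positivity)
      _ = 2 * C * (H : ℝ) ^ (-δ) * W := by ring
  · have hR : (0 : ℝ) ≤ 1 / ((R : ℝ) + 1) ^ (d - 2) := by positivity
    have hHδ : (0 : ℝ) ≤ (H : ℝ) ^ (-δ) := by positivity
    calc C * (H : ℝ) ^ ((d + 2).choose 2 - 1) * (1 / ((R : ℝ) + 1) ^ (d - 2) +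
          T * (H : ℝ) ^ (η / 2 - ((d : ℝ) - 1))) ≤
          C * W * (1 / ((R : ℝ) + 1) ^ (d - 2) + (H : ℝ) ^ (-δ)) := by
          apply mul_le_mul (mul_le_mul_of_nonneg_left hS hC.le) (by linarith)
            (by positivity) (by positivity)
      _ ≤ 2 * (C * W * (1 / ((R : ℝ) + 1) ^ (d - 2) + (H : ℝ) ^ (-δ))) := by
          have : 0 ≤ C * W * (1 / ((R : ℝ) + 1) ^ (d - 2) + (H : ℝ) ^ (-δ)) := by positivity
          linarith
      _ = _ := by ring

end Pool.Agent.Q256.UG.Unq
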