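import Pool.Agent.Q256.UG.Stm
import Pool.Agent.Q256.UG.Unq

set_option autoImplicit false

/-!
# Project UG: job TLG, the tail estimate
-/

namespace Pool.Agent.Q256.UG.TLc

open Finset MvPolynomial
open Pool.Agent.Q256.UG
open Pool.Agent.Q256.UP (PBox finite_pbox)
open Pool.Agent.Q256.UG.Unq (Polys Points)

theorem tlg : S_DYG → S_LGG → S_SYG → S_TLG := by
  intro hDYG hLGG hSYG d hd
  obtain ⟨K, e, C3, hC3, h3⟩ := hLGG d hd
  obtain ⟨C2, hC2, h2⟩ := hDYG d hd K e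
  obtain ⟨C1, hC1, h1⟩ := (Pool.Agent.Q256.UG.Unq.unique_point d (by omega)).1
    (1 / 4) (by norm_num)
  refine ⟨2 * C1 + 4 * C2 + C3, by linarith, ?_⟩
  intro H R hH
  have hHr : (1 : ℝ) ≤ H := by exact_mod_cast hH
  have hH0 : (0 : ℝ) < H := by linarith
  have hd7 : (7 : ℝ) ≤ d := by exact_mod_cast hd
  -- the threshold
  set t : ℝ := (H : ℝ) ^ ((d : ℝ) - 3 / 2) with ht
  have ht1 : 1 ≤ t := Real.one_le_rpow hHr (by linarith)
  set T1 : ℕ := ⌈t⌉₊ with hT1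
  have hT1a : t ≤ T1 := Nat.le_ceil t
  have hT1b : (T1 : ℝ) ≤ 2 * t := by
    have := (Nat.ceil_lt_add_one (by linarith : 0 ≤ t)).le
    linarith
  have hT1sq : H ^ (2 * d - 3) ≤ T1 ^ 2 := by
    have e1 : ((H ^ (2 * d - 3) : ℕ) : ℝ) = t ^ 2 := by
      rw [ht, ← Real.rpow_natCast ((H : ℝ) ^ ((d : ℝ) - 3 / 2)) 2, ← Real.rpow_mul hH0.le,
        Nat.cast_pow, ← Real.rpow_natCast (H : ℝ) (2 * d - 3), Nat.cast_sub (by omega)]
      congr 1
      push_cast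
      ring
    have e2 : ((H ^ (2 * d - 3) : ℕ) : ℝ) ≤ ((T1 ^ 2 : ℕ) : ℝ) := by
      rw [e1]
      push_cast
      exact pow_le_pow_left₀ (by linarith) hT1a 2
    exact_mod_cast e2
  have g1 := (h1 H hH).1 R T1
  have g2 := h2 H T1 hH hT1sq
  have g3 := h3 K H le_rfl hH
  have g4 := hSYG d H T1 ((K * H) ^ e)
  rw [Nat.card_coe_set_eq] at g1 g3 g4
  rw [Nat.card_coe_set_eq]
  set A1 : Set (MvPolynomial (Fin 2) ℤ) :=
    {F | F ∈ Polys d H ∧ ∃ p ∈ Points F T1, (R : ℤ) < max |p.1| |p.2|} with hA1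
  set A2 : Set (MvPolynomial (Fin 2) ℤ) := {F | F ∈ PBox d H ∧ ∃ x y : ℤ,
    (T1 : ℤ) ≤ max |x| |y| ∧ max |x| |y| ≤ (((K * H) ^ e : ℕ) : ℤ) ∧
      eval ![x, y] F = 0} with hA2
  set A3 : Set (MvPolynomial (Fin 2) ℤ) := {F | F ∈ PBox d H ∧ ∃ x y : ℤ,
    (((K * H) ^ e : ℕ) : ℤ) < max |x| |y| ∧ eval ![x, y] F = 0} with hA3
  have hsub : {F | F ∈ PBox d H ∧ ∃ x y : ℤ, (R : ℤ) < max |x| |y| ∧ eval ![x, y] F = 0} ⊆
      (A1 ∪ A2) ∪ A3 := by
    rintro F ⟨hF, x, y, hxy, h0⟩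
    rcases le_or_gt (max |x| |y|) (T1 : ℤ) with hc | hc
    · left; left
      exact ⟨hF, (x, y), ⟨hc, h0⟩, hxy⟩
    · rcases le_or_gt (max |x| |y|) (((K * H) ^ e : ℕ) : ℤ) with hc2 | hc2
      · left; right
        exact ⟨hF, x, y, hc.le, hc2, h0⟩
      · right
        exact ⟨hF, x, y, hc2, h0⟩
  have f1 : A1.Finite := (finite_pbox d H).subset fun F hF => hF.1
  have f2 : A2.Finite := (finite_pbox d H).subset fun F hF => hF.1
  have f3 : A3.Finite := (finite_pbox d H).subset fun F hF => hF.1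
  have hcard := Set.ncard_le_ncard hsub ((f1.union f2).union f3)
  have hu1 := Set.ncard_union_le (A1 ∪ A2) A3
  have hu2 := Set.ncard_union_le A1 A2
  have hall : (({F | F ∈ PBox d H ∧ ∃ x y : ℤ, (R : ℤ) < max |x| |y| ∧
      eval ![x, y] F = 0} : Set (MvPolynomial (Fin 2) ℤ)).ncard : ℝ) ≤
      A1.ncard + 4 * (Nat.card (ZG d H T1 ((K * H) ^ e)) : ℝ) + A3.ncard := by
    have : ({F | F ∈ PBox d H ∧ ∃ x y : ℤ, (R : ℤ) < max |x| |y| ∧
      eval ![x, y] F = 0} : Set (MvPolynomial (Fin 2) ℤ)).ncard ≤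
      A1.ncard + 4 * Nat.card (ZG d H T1 ((K * H) ^ e)) + A3.ncard := by omega
    exact_mod_cast this
  refine hall.trans ?_
  -- exponents
  have hN : (d + 1) * (d + 2) / 2 = NC d := by
    unfold NC
    rw [Nat.choose_two_right]
    congr 1
    have : d + 2 - 1 = d + 1 := by omega
    rw [this, mul_comm]
  rw [hN] at g1
  have hNC1 : 1 ≤ NC d := by
    unfold NC
    exact Nat.choose_pos (by omega)
  set P : ℝ := (H : ℝ) ^ (NC d - 1) with hP
  have hP0 : 0 < P := by positivity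
  have hPr : P = (H : ℝ) ^ ((NC d : ℝ) - 1) := by
    rw [hP, ← Real.rpow_natCast, Nat.cast_sub hNC1, Nat.cast_one]
  set q : ℝ := (H : ℝ) ^ (-(1 / 4 : ℝ)) with hq
  have hq0 : 0 < q := Real.rpow_pos_of_pos hH0 _
  set w : ℝ := 1 / ((R : ℝ) + 1) ^ (d - 2) with hw
  have hw0 : 0 < w := by positivity
  have b1 : (T1 : ℝ) * (H : ℝ) ^ ((1 / 4 : ℝ) - ((d : ℝ) - 1)) ≤ 2 * q := by
    calc (T1 : ℝ) * (H : ℝ) ^ ((1 / 4 : ℝ) - ((d : ℝ) - 1)) ≤
          2 * t * (H : ℝ) ^ ((1 / 4 : ℝ) - ((d : ℝ) - 1)) :=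
          mul_le_mul_of_nonneg_right hT1b (Real.rpow_pos_of_pos hH0 _).le
      _ = 2 * (t * (H : ℝ) ^ ((1 / 4 : ℝ) - ((d : ℝ) - 1))) := by ring
      _ = 2 * q := by
          rw [ht, ← Real.rpow_add hH0, hq]
          congr 2
          ring
  have c1 : (A1.ncard : ℝ) ≤ 2 * C1 * P * (w + q) := by
    refine g1.trans ?_
    calc C1 * P * (w + T1 * (H : ℝ) ^ ((1 / 4 : ℝ) - ((d : ℝ) - 1))) ≤
        C1 * P * (w + 2 * q) := mul_le_mul_of_nonneg_left (by linarith) (by positivity)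
      _ ≤ C1 * P * (2 * (w + q)) := mul_le_mul_of_nonneg_left (by linarith) (by positivity)
      _ = _ := by ring
  have c2 : (Nat.card (ZG d H T1 ((K * H) ^ e)) : ℝ) ≤ C2 * P * q := by
    refine g2.trans ?_
    rw [mul_assoc]
    refine mul_le_mul_of_nonneg_left ?_ (by linarith)
    rw [hPr, hq, ← Real.rpow_add hH0]
    exact Real.rpow_le_rpow_of_exponent_le hHr (by linarith)
  have c3 : (A3.ncard : ℝ) ≤ C3 * P * q := by
    refine g3.trans ?_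
    rw [mul_assoc]
    refine mul_le_mul_of_nonneg_left ?_ (by linarith)
    rw [hPr, hq, ← Real.rpow_add hH0]
    exact Real.rpow_le_rpow_of_exponent_le hHr (by linarith)
  have c2' : C2 * P * q ≤ C2 * P * (w + q) :=
    mul_le_mul_of_nonneg_left (by linarith) (by positivity)
  have c3' : C3 * P * q ≤ C3 * P * (w + q) :=
    mul_le_mul_of_nonneg_left (by linarith) (by positivity)
  calc (A1.ncard : ℝ) + 4 * (Nat.card (ZG d H T1 ((K * H) ^ e)) : ℝ) + A3.ncard ≤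
      2 * C1 * P * (w + q) + 4 * (C2 * P * (w + q)) + C3 * P * (w + q) := by linarith
    _ = _ := by ring

end Pool.Agent.Q256.UG.TLc
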