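import Mathlib
import Pool.Agent.Q256.UG.Stm
import Pool.Agent.Q285.UI_TAY
import Pool.Agent.Q68.UI_WND
import Pool.Agent.Q38.UI_LCK
import Pool.Agent.Q25.UG_GD1
import Pool.Agent.Q150.UG_GD2
import Pool.Agent.Q150.UG_GD3
import Pool.Agent.Q211.UG_TCB
import Pool.Agent.Q223.UG_NWT
import Pool.Agent.Q38.UG_SPG
import Pool.Agent.Q38.UG_RAT
import Pool.Agent.Q38.UG_TWG
import Pool.Agent.Q211.UG_CNG
import Pool.Agent.Q38.UG_LIG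
import Pool.Agent.Q25.UG_CZG
import Pool.Agent.Q241.UG_NTH
import Pool.Agent.Q25.UG_INV
import Pool.Agent.Q211.UG_LDF
import Pool.Agent.Q285.UG_GRD
import Pool.Agent.Q137.UG.CL2
import Pool.Agent.Q137.UG.CL3
import Pool.Agent.Q277.UG_CL4
import Pool.Agent.Q211.UG_CLS
import Pool.Agent.Q65.UG_PRD
import Pool.Agent.Q65.UG_DGC
import Pool.Agent.Q130.UG.RTC
import Pool.Agent.Q130.UG.RSC
import Pool.Agent.Q241.UG_RPC
import Pool.Agent.Q208.UG_VND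
import Pool.Agent.Q208.UG_VDG
import Pool.Agent.Q153.UG_DYG
import Pool.Agent.Q153.UG_GEL
import Pool.Agent.Q151.UG_RED
import Pool.Agent.Q151.UG_SQF
import Pool.Agent.Q275.UG.LGG
import Pool.Agent.Q25.UG_SYG
import Pool.Agent.Q256.UG.TLc
import Pool.Agent.Q25.UG_UNG
import Pool.Agent.Q238.UG_COG
import Pool.Agent.Q154.UG_CMG
import Pool.Agent.Q154.UG_CL1

set_option autoImplicit false

/-! Project UG: all the lemmas together. -/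

namespace Pool.Agent.Q256.UG

theorem h_gd1 : S_GD1 := Pool.Agent.Q25.UGD.gd1

theorem h_spg : S_SPG := Pool.Agent.Q38.UGS.spg h_gd1 Pool.Agent.Q285.UI.tay

theorem h_cog : S_COG := Pool.Agent.Q238.UG.cog (Pool.Agent.Q150.UG.gd2 h_gd1) h_spg
  Pool.Agent.Q285.UI.tay

theorem h_rat : S_RAT := Pool.Agent.Q38.UGR.rat Pool.Agent.Q25.UGD.gd4 h_spg
  Pool.Agent.Q285.UI.tay

theorem h_twg : S_TWG := Pool.Agent.Q38.UGT.twg (Pool.Agent.Q150.UG.gd3 h_gd1) h_spg h_cog h_rat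
  Pool.Agent.Q285.UI.tay

theorem h_cng : S_CNG := Pool.Agent.Q211.UG.cng h_twg Pool.Agent.Q68.UI.wnd

theorem h_czg : S_CZG := Pool.Agent.Q25.UGC.czg h_cog h_rat
  (Pool.Agent.Q38.UGL.lig Pool.Agent.Q38.UI.lck) Pool.Agent.Q68.UI.wnd

theorem h_cls : S_CLS := Pool.Agent.Q211.UG.cls (Pool.Agent.Q154.UG.cl1 Pool.Agent.Q285.UG.grd)
  (Pool.Agent.Q277.UG_CL4.cl4 (Pool.Agent.Q137.UG3.cl3 Pool.Agent.Q137.UG.cl2))
  Pool.Agent.Q211.UG.ldf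

theorem h_dgc : S_DGC := Pool.Agent.Q65.UG.dgc (Pool.Agent.Q65.UG.prd Pool.Agent.Q285.UG.grd)
  Pool.Agent.Q211.UG.ldf Pool.Agent.Q25.UGI.inv Pool.Agent.Q241.UG_NTH.nth

theorem h_vnd : S_VND := Pool.Agent.Q208.vnd Pool.Agent.Q211.UG.tcb h_cng
  Pool.Agent.Q241.UG_NTH.nth Pool.Agent.Q25.UGI.inv Pool.Agent.Q154.UG.cmg

theorem h_vdg : S_VDG := Pool.Agent.Q208.vdg Pool.Agent.Q211.UG.tcb h_czg
  Pool.Agent.Q241.UG_NTH.nth Pool.Agent.Q25.UGI.inv Pool.Agent.Q154.UG.cmg h_dgc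

theorem h_dyg : S_DYG := Pool.Agent.Q153.UG.dyg Pool.Agent.Q223.UG.nwt h_cls
  (Pool.Agent.Q130.UG.rsc Pool.Agent.Q130.UG.rtc)
  (Pool.Agent.Q241.UG_RPC.rpc Pool.Agent.Q130.UG.rtc Pool.Agent.Q25.UGI.inv) h_vnd h_vdg

theorem h_lgg : S_LGG := Pool.Agent.Q275.UG.lgg (Pool.Agent.Q151.UG.red Pool.Agent.Q153.UG.gel)
  (Pool.Agent.Q151.UG.sqf Pool.Agent.Q153.UG.gel Pool.Agent.Q211.UG.ldf)

theorem h_tlg : S_TLG := Pool.Agent.Q256.UG.TLc.tlg h_dyg h_lgg Pool.Agent.Q25.UGS.syg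

theorem h_ung : S_UNG := Pool.Agent.Q25.UGU.ung h_tlg

end Pool.Agent.Q256.UG
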